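import Pool.Agent.H76.VG.Fund2

set_option autoImplicit false

/-!
The fundamental lemma of the sieve in two variables, for sieving limits which are powers of `log X`.
-/

namespace Pool.Agent.H76.VG

open Finset
open Pool.Agent.H373R2.T7 (pz mem_pz)

lemma ev_nat (P : ℕ → Prop) (h : ∀ᶠ n : ℕ in Filter.atTop, P n) : ∃ n₀ : ℕ, ∀ n : ℕ, n₀ ≤ n → P n := by
  rw [Filter.eventually_atTop] at h
  exact h

lemma ev_log (c : ℝ) : ∃ N0 : ℕ, ∀ N : ℕ, N0 ≤ N → c ≤ Real.log N :=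
  ev_nat _ ((Real.tendsto_log_atTop.comp (tendsto_natCast_atTop_atTop (R := ℝ))).eventually (Filter.eventually_ge_atTop c))

lemma ev_loglog (c₁ c₂ c₃ : ℝ) : ∃ N0 : ℕ, ∀ N : ℕ, N0 ≤ N →
    c₁ + c₂ * Real.log (Real.log N) + c₃ * Real.log (Real.log N) ^ 2 ≤ Real.log N := by
  apply ev_nat
  have h : ∀ᶠ x : ℝ in Filter.atTop, c₁ + c₂ * Real.log x + c₃ * Real.log x ^ 2 ≤ x := by
    have h0 := Filter.eventually_ge_atTop (4 * |c₁| + 1)
    have e1 : (0 : ℝ) < 1 / (4 * (|c₂| + 1)) := by positivity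
    have e2 : (0 : ℝ) < 1 / (4 * (|c₃| + 1)) := by positivity
    have h1 := (Real.isLittleO_pow_log_id_atTop (n := 1)).bound e1
    have h2 := (Real.isLittleO_pow_log_id_atTop (n := 2)).bound e2
    filter_upwards [h0, h1, h2, Filter.eventually_ge_atTop 1] with x h0 h1 h2 hx
    simp only [id, Real.norm_eq_abs, pow_one] at h1 h2
    have hx0 : 0 < x := by linarith
    rw [abs_of_pos hx0] at h1 h2
    have k1 : c₂ * Real.log x ≤ x / 4 := by
      calc c₂ * Real.log x ≤ |c₂ * Real.log x| := le_abs_self _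
        _ = |c₂| * |Real.log x| := abs_mul _ _
        _ ≤ (|c₂| + 1) * (1 / (4 * (|c₂| + 1)) * x) := mul_le_mul (by linarith) h1 (abs_nonneg _) (by positivity)
        _ = x / 4 := by field_simp
    have k2 : c₃ * Real.log x ^ 2 ≤ x / 4 := by
      calc c₃ * Real.log x ^ 2 ≤ |c₃ * Real.log x ^ 2| := le_abs_self _
        _ = |c₃| * |Real.log x ^ 2| := abs_mul _ _
        _ ≤ (|c₃| + 1) * (1 / (4 * (|c₃| + 1)) * x) := mul_le_mul (by linarith) h2 (abs_nonneg _) (by positivity)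
        _ = x / 4 := by field_simp
    have k3 : c₁ ≤ x / 4 := by
      have := le_abs_self c₁
      linarith
    linarith
  exact (Real.tendsto_log_atTop.comp (tendsto_natCast_atTop_atTop (R := ℝ))).eventually h

open Classical in
theorem fund2 (κ A K : ℕ) : ∃ X₀ : ℕ, ∀ X : ℕ, X₀ ≤ X → ∀ z : ℕ, Real.log X ≤ z → (z : ℝ) ≤ Real.log X ^ K →
    ∀ Q : ℕ → ℕ → ℕ → Prop, Per2 Q κ → ∀ S : Finset (ℕ × ℕ), Conv S X →
    |((S.filter (fun t => ∀ p ∈ pz z, ¬ Q p t.1 t.2)).card : ℝ) - S.card * ∏ p ∈ pz z, (1 - (nu2 Q p : ℝ) / p ^ 2)| ≤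
      X ^ 2 / Real.log X ^ A := by
  obtain ⟨C0, K0, z1, hC0, h0⟩ := fund2_raw κ
  obtain ⟨n1, h1⟩ := ev_log ((z1 : ℝ) + 3)
  obtain ⟨n2, h2⟩ := ev_loglog (Real.log (8 * (K0 + 1))) (A + K * (6 * C0 * (C0 + 1) + 2)) (K * (6 * C0 * (2 * (A + 1))))
  refine ⟨max (max n1 n2) 1, fun X hX z hz1 hz2 Q hQ S hS => ?_⟩
  have hX1 : 1 ≤ X := (le_max_right _ _).trans hX
  have a1 := h1 X (((le_max_left _ _).trans (le_max_left _ _)).trans hX)
  have a2 := h2 X (((le_max_right _ _).trans (le_max_left _ _)).trans hX)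
  have hX0 : (0 : ℝ) < X := by exact_mod_cast hX1
  set L := Real.log X with hL
  have hz10 : (0 : ℝ) ≤ z1 := Nat.cast_nonneg _
  have hL3 : 3 ≤ L := by linarith
  have hL0 : 0 < L := by linarith
  set LL := Real.log L with hLL
  have hLL1 : 1 ≤ LL := by
    rw [hLL, Real.le_log_iff_exp_le hL0]
    have := Real.exp_one_lt_d9
    linarith
  have hzz : z1 ≤ z := by
    have : (z1 : ℝ) ≤ z := by linarith
    exact_mod_cast this
  set r : ℕ := ⌈2 * ((A : ℝ) + 1) * LL⌉₊ with hr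
  set b := C0 + r with hb
  have key := h0 b z (by omega) hzz Q hQ S (4 * X) (by positivity) hS.eq2
  refine key.trans ?_
  have hScard : (S.card : ℝ) ≤ X ^ 2 := by
    have := card_le_card hS.sub
    rw [card_product, Nat.card_Icc] at this
    have h3 : S.card ≤ X ^ 2 := by rw [sq]; simpa using this
    exact_mod_cast h3
  have hexpLL : Real.exp LL = L := Real.exp_log hL0
  -- the first term
  have hr1 : 2 * ((A : ℝ) + 1) * LL ≤ r := Nat.le_ceil _
  have hr2 : (r : ℝ) < 2 * ((A : ℝ) + 1) * LL + 1 := Nat.ceil_lt_add_one (by positivity)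
  have ht1 : (1 / 2 : ℝ) ^ b * S.card ≤ X ^ 2 / (2 * L ^ A) := by
    have e1 : (1 / 2 : ℝ) ^ b ≤ 1 / (2 * L ^ A) := by
      have e2 : (1 / 2 : ℝ) ^ b = Real.exp (-(b * Real.log 2)) := by
        rw [one_div, inv_pow, Real.exp_neg, mul_comm, Real.exp_mul, Real.exp_log (by norm_num), Real.rpow_natCast]
      have e3 : 2 * L ^ A ≤ Real.exp (b * Real.log 2) := by
        have e4 : 2 * L ^ A ≤ L ^ (A + 1) := by
          rw [pow_succ, mul_comm]
          exact mul_le_mul_of_nonneg_left (by linarith) (by positivity)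
        refine e4.trans ?_
        rw [← hexpLL, ← Real.exp_nat_mul, Real.exp_le_exp]
        have hl2 : (1 / 2 : ℝ) ≤ Real.log 2 := by have := Real.log_two_gt_d9; linarith
        have e5 : (r : ℝ) ≤ b := by exact_mod_cast (by omega : r ≤ b)
        have e6 : (b : ℝ) * (1 / 2) ≤ b * Real.log 2 := mul_le_mul_of_nonneg_left hl2 (Nat.cast_nonneg _)
        push_cast
        linarith
      rw [e2, Real.exp_neg, inv_eq_one_div]
      exact one_div_le_one_div_of_le (by positivity) e3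
    calc (1 / 2 : ℝ) ^ b * S.card ≤ (1 / (2 * L ^ A)) * X ^ 2 := mul_le_mul e1 hScard (Nat.cast_nonneg _) (by positivity)
      _ = _ := by ring
  -- the second term
  have ht2 : (z : ℝ) ^ (6 * (C0 * b) + 2) * K0 * (4 * X) ≤ X ^ 2 / (2 * L ^ A) := by
    rw [le_div_iff₀ (by positivity)]
    have e1 : (z : ℝ) ^ (6 * (C0 * b) + 2) ≤ Real.exp (((6 * (C0 * b) + 2 : ℕ) : ℝ) * (K * LL)) := by
      calc (z : ℝ) ^ (6 * (C0 * b) + 2) ≤ (L ^ K) ^ (6 * (C0 * b) + 2) := pow_le_pow_left₀ (Nat.cast_nonneg _) hz2 _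
        _ = _ := by rw [← hexpLL, ← Real.exp_nat_mul, ← Real.exp_nat_mul]
    have e2 : 8 * ((K0 : ℝ) + 1) * (L ^ A * Real.exp (((6 * (C0 * b) + 2 : ℕ) : ℝ) * (K * LL))) ≤ X := by
      have e3 : 8 * ((K0 : ℝ) + 1) * (L ^ A * Real.exp (((6 * (C0 * b) + 2 : ℕ) : ℝ) * (K * LL))) =
          Real.exp (Real.log (8 * (K0 + 1)) + (A * LL + ((6 * (C0 * b) + 2 : ℕ) : ℝ) * (K * LL))) := by
        have hA : Real.exp ((A : ℝ) * LL) = L ^ A := by rw [Real.exp_nat_mul, hexpLL]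
        rw [Real.exp_add, Real.exp_add, Real.exp_log (by positivity), hA]
      rw [e3]
      have e4 : (X : ℝ) = Real.exp L := (Real.exp_log hX0).symm
      rw [e4, Real.exp_le_exp]
      refine le_trans ?_ a2
      have hb2 : (b : ℝ) ≤ C0 + 1 + 2 * (A + 1) * LL := by
        rw [hb]; push_cast; linarith
      push_cast
      have hC00 : (0 : ℝ) ≤ C0 := Nat.cast_nonneg _
      have hK00 : (0 : ℝ) ≤ K := Nat.cast_nonneg _
      have e5 : 6 * ((C0 : ℝ) * b) + 2 ≤ 6 * C0 * (C0 + 1 + 2 * (A + 1) * LL) + 2 := by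
        have := mul_le_mul_of_nonneg_left hb2 hC00
        linarith
      have e6 : (6 * ((C0 : ℝ) * b) + 2) * (K * LL) ≤ (6 * C0 * (C0 + 1 + 2 * (A + 1) * LL) + 2) * (K * LL) :=
        mul_le_mul_of_nonneg_right e5 (by positivity)
      have e7 : (6 * (C0 : ℝ) * (C0 + 1 + 2 * (A + 1) * LL) + 2) * (K * LL) =
        K * (6 * C0 * (C0 + 1) + 2) * LL + K * (6 * C0 * (2 * (A + 1))) * LL ^ 2 := by ring
      rw [e7] at e6
      linarith
    have e3 : (z : ℝ) ^ (6 * (C0 * b) + 2) * K0 * (4 * X) * (2 * L ^ A) ≤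
        (8 * ((K0 : ℝ) + 1) * (L ^ A * Real.exp (((6 * (C0 * b) + 2 : ℕ) : ℝ) * (K * LL)))) * X := by
      have e4 : (z : ℝ) ^ (6 * (C0 * b) + 2) * K0 * (4 * X) * (2 * L ^ A) =
        (8 * (K0 : ℝ) * (L ^ A * (z : ℝ) ^ (6 * (C0 * b) + 2))) * X := by ring
      rw [e4]
      gcongr
      linarith
    calc _ ≤ _ := e3
      _ ≤ X * X := mul_le_mul_of_nonneg_right e2 hX0.le
      _ = X ^ 2 := by ring
  have e : (X : ℝ) ^ 2 / (2 * L ^ A) + X ^ 2 / (2 * L ^ A) = X ^ 2 / L ^ A := by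
    field_simp; ring
  rw [← e]
  exact add_le_add ht1 ht2

end Pool.Agent.H76.VG
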