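import Pool.Agent.H76.VG.Loc
import Pool.Agent.H76.VG.FundB

set_option autoImplicit false

/-!
The singular series.
-/

namespace Pool.Agent.H76.VG

open Finset
open Pool.Agent.H373R2.T7 (pz mem_pz Vz Vz_pos)

/-- the local factor -/
noncomputable def Gp (N₁ N₂ N₃ m p : ℕ) : ℝ := (1 - (nu2 (Bd N₁ N₂ N₃ m) p : ℝ) / p ^ 2) / (1 - 1 / (p : ℝ)) ^ 6

/-- the truncated singular series -/
noncomputable def Sg (z N₁ N₂ N₃ m : ℕ) : ℝ := ∏ p ∈ pz z, Gp N₁ N₂ N₃ m p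

lemma den_pos {p : ℕ} (hp : p.Prime) : (1 / 64 : ℝ) ≤ (1 - 1 / (p : ℝ)) ^ 6 := by
  have hp2 : (2 : ℝ) ≤ p := by exact_mod_cast hp.two_le
  have h1 : (1 / (p : ℝ)) ≤ 1 / 2 := one_div_le_one_div_of_le (by norm_num) hp2
  have h2 : (1 / 2 : ℝ) ≤ 1 - 1 / (p : ℝ) := by linarith
  calc (1 / 64 : ℝ) = (1 / 2) ^ 6 := by norm_num
    _ ≤ _ := pow_le_pow_left₀ (by norm_num) h2 6

lemma six (x : ℝ) (h0 : 0 ≤ x) (h1 : x ≤ 1) : 1 - 6 * x ≤ (1 - x) ^ 6 ∧ (1 - x) ^ 6 ≤ 1 - 6 * x + 15 * x ^ 2 ∧ (1 - x) ^ 6 ≤ 1 := by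
  refine ⟨?_, ?_, ?_⟩
  · have := one_add_mul_le_pow (a := -x) (by linarith) 6
    have e : (1 : ℝ) - x = 1 + -x := by ring
    rw [e]
    push_cast at this
    linarith
  · have h : 1 - 6 * x + 15 * x ^ 2 - (1 - x) ^ 6 = x ^ 3 * (20 - 15 * x + x ^ 2 * (6 - x)) := by ring
    have h2 : 0 ≤ x ^ 3 * (20 - 15 * x + x ^ 2 * (6 - x)) := by
      apply mul_nonneg (by positivity)
      have : 0 ≤ x ^ 2 * (6 - x) := mul_nonneg (by positivity) (by linarith)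
      linarith
    linarith
  · exact pow_le_one₀ (by linarith) (by linarith)

lemma Gp_sub {N₁ N₂ N₃ m p : ℕ} (hp : p.Prime) :
    |Gp N₁ N₂ N₃ m p - 1| ≤ 64 * |(1 - (nu2 (Bd N₁ N₂ N₃ m) p : ℝ) / p ^ 2) - (1 - 1 / (p : ℝ)) ^ 6| := by
  have hd := den_pos hp
  have hd0 : 0 < (1 - 1 / (p : ℝ)) ^ 6 := by linarith
  have e : Gp N₁ N₂ N₃ m p - 1 = ((1 - (nu2 (Bd N₁ N₂ N₃ m) p : ℝ) / p ^ 2) - (1 - 1 / (p : ℝ)) ^ 6) / (1 - 1 / (p : ℝ)) ^ 6 := by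
    unfold Gp
    rw [sub_div _ ((1 - 1 / (p : ℝ)) ^ 6) ((1 - 1 / (p : ℝ)) ^ 6), div_self hd0.ne']
  rw [e, abs_div, abs_of_pos hd0, div_le_iff₀ hd0]
  have := abs_nonneg ((1 - (nu2 (Bd N₁ N₂ N₃ m) p : ℝ) / p ^ 2) - (1 - 1 / (p : ℝ)) ^ 6)
  nlinarith

lemma nu_bound {N₁ N₂ N₃ m p : ℕ} (hp : p.Prime) : 0 ≤ (nu2 (Bd N₁ N₂ N₃ m) p : ℝ) / p ^ 2 ∧
    (nu2 (Bd N₁ N₂ N₃ m) p : ℝ) / p ^ 2 ≤ 6 * (1 / (p : ℝ)) := by
  have hp0 : (0 : ℝ) < p := by exact_mod_cast hp.pos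
  refine ⟨by positivity, ?_⟩
  have h1 : (nu2 (Bd N₁ N₂ N₃ m) p : ℝ) ≤ 6 * p := by exact_mod_cast Bd_few N₁ N₂ N₃ m p hp
  rw [div_le_iff₀ (by positivity)]
  refine h1.trans (le_of_eq ?_)
  field_simp

lemma Gp_near1 {N₁ N₂ N₃ m p : ℕ} (hp : p.Prime) : |Gp N₁ N₂ N₃ m p - 1| ≤ 384 * (1 / (p : ℝ)) := by
  have hp2 : (2 : ℝ) ≤ p := by exact_mod_cast hp.two_le
  have hx0 : 0 ≤ 1 / (p : ℝ) := by positivity
  have hx1 : 1 / (p : ℝ) ≤ 1 := by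
    rw [div_le_one (by linarith)]; linarith
  obtain ⟨a, b⟩ := @nu_bound N₁ N₂ N₃ m p hp
  obtain ⟨c1, _, c3⟩ := six (1 / (p : ℝ)) hx0 hx1
  refine (Gp_sub hp).trans ?_
  have : |(1 - (nu2 (Bd N₁ N₂ N₃ m) p : ℝ) / p ^ 2) - (1 - 1 / (p : ℝ)) ^ 6| ≤ 6 * (1 / (p : ℝ)) := by
    rw [abs_le]; constructor <;> linarith
  linarith

lemma Gp_near2 {N₁ N₂ N₃ m p : ℕ} (hp : p.Prime) (h₁ : ¬ p ∣ N₁) (h₂ : ¬ p ∣ N₂) (h₃ : ¬ p ∣ N₃) :
    |Gp N₁ N₂ N₃ m p - 1| ≤ 1024 * (1 / (p : ℝ)) ^ 2 := by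
  have hp2 : (2 : ℝ) ≤ p := by exact_mod_cast hp.two_le
  have hx0 : 0 ≤ 1 / (p : ℝ) := by positivity
  have hx1 : 1 / (p : ℝ) ≤ 1 := by
    rw [div_le_one (by linarith)]; linarith
  obtain ⟨_, b⟩ := @nu_bound N₁ N₂ N₃ m p hp
  obtain ⟨c1, c2, _⟩ := six (1 / (p : ℝ)) hx0 hx1
  refine (Gp_sub hp).trans ?_
  have a : 6 * (1 / (p : ℝ)) - 16 * (1 / (p : ℝ)) ^ 2 ≤ (nu2 (Bd N₁ N₂ N₃ m) p : ℝ) / p ^ 2 := by
    have h1 : 6 * (p : ℝ) - 16 ≤ nu2 (Bd N₁ N₂ N₃ m) p := by exact_mod_cast nu2_lower N₁ N₂ N₃ m p hp h₁ h₂ h₃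
    rw [le_div_iff₀ (by positivity)]
    refine le_trans (le_of_eq ?_) h1
    field_simp
  have : |(1 - (nu2 (Bd N₁ N₂ N₃ m) p : ℝ) / p ^ 2) - (1 - 1 / (p : ℝ)) ^ 6| ≤ 16 * (1 / (p : ℝ)) ^ 2 := by
    have : 0 ≤ (1 / (p : ℝ)) ^ 2 := by positivity
    rw [abs_le]; constructor <;> linarith
  linarith

lemma log_lower (x : ℝ) (hx1 : x < 1) : Real.exp (-(x / (1 - x))) ≤ 1 - x := by
  have h1 : 0 < 1 - x := by linarith
  have h2 := Real.add_one_le_exp (x / (1 - x))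
  have h3 : x / (1 - x) + 1 = (1 - x)⁻¹ := by field_simp; ring
  rw [h3] at h2
  rw [Real.exp_neg]
  exact inv_le_of_inv_le₀ h1 h2

lemma Gp_lower {N₁ N₂ N₃ m p : ℕ} (hp : p.Prime) (h5 : 5 ≤ p) : Real.exp (-(87 * (1 / (p : ℝ)) ^ 2)) ≤ Gp N₁ N₂ N₃ m p := by
  have hp5 : (5 : ℝ) ≤ p := by exact_mod_cast h5
  set x := 1 / (p : ℝ) with hx
  have hx0 : 0 < x := by positivity
  have hx5 : x ≤ 1 / 5 := one_div_le_one_div_of_le (by norm_num) hp5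
  have h1 : (nu2 (Bd N₁ N₂ N₃ m) p : ℝ) ≤ 6 * p - 8 := by exact_mod_cast nu2_upper N₁ N₂ N₃ m p hp h5
  have h2 : (1 - 2 * x) * (1 - 4 * x) ≤ 1 - (nu2 (Bd N₁ N₂ N₃ m) p : ℝ) / p ^ 2 := by
    have e : (nu2 (Bd N₁ N₂ N₃ m) p : ℝ) / p ^ 2 ≤ 6 * x - 8 * x ^ 2 := by
      rw [div_le_iff₀ (by positivity)]
      refine h1.trans (le_of_eq ?_)
      rw [hx]; field_simp
    nlinarith
  have h3 : Real.exp (-(2 * x) - 7 * x ^ 2) ≤ 1 - 2 * x := by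
    refine le_trans ?_ (log_lower (2 * x) (by linarith))
    rw [Real.exp_le_exp]
    have : 2 * x / (1 - 2 * x) ≤ 2 * x + 7 * x ^ 2 := by
      rw [div_le_iff₀ (by linarith)]
      nlinarith [mul_pos hx0 hx0, mul_pos (mul_pos hx0 hx0) hx0]
    linarith
  have h4 : Real.exp (-(4 * x) - 80 * x ^ 2) ≤ 1 - 4 * x := by
    refine le_trans ?_ (log_lower (4 * x) (by linarith))
    rw [Real.exp_le_exp]
    have : 4 * x / (1 - 4 * x) ≤ 4 * x + 80 * x ^ 2 := by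
      rw [div_le_iff₀ (by linarith)]
      nlinarith [mul_pos hx0 hx0, mul_pos (mul_pos hx0 hx0) hx0, mul_nonneg hx0.le (mul_nonneg hx0.le (sub_nonneg.2 hx5))]
    linarith
  have h6 : (1 - x) ^ 6 ≤ Real.exp (-(6 * x)) := by
    have := Real.one_sub_le_exp_neg x
    calc (1 - x) ^ 6 ≤ Real.exp (-x) ^ 6 := pow_le_pow_left₀ (by linarith) this 6
      _ = Real.exp (-(6 * x)) := by rw [← Real.exp_nat_mul]; congr 1; push_cast; ring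
  have h7 : 0 < (1 - x) ^ 6 := by have : 0 < 1 - x := by linarith
                                  positivity
  unfold Gp
  rw [← hx, le_div_iff₀ h7]
  calc Real.exp (-(87 * x ^ 2)) * (1 - x) ^ 6 ≤ Real.exp (-(87 * x ^ 2)) * Real.exp (-(6 * x)) :=
        mul_le_mul_of_nonneg_left h6 (Real.exp_pos _).le
    _ = Real.exp (-(2 * x) - 7 * x ^ 2) * Real.exp (-(4 * x) - 80 * x ^ 2) := by
        rw [← Real.exp_add, ← Real.exp_add]; congr 1; ring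
    _ ≤ (1 - 2 * x) * (1 - 4 * x) := mul_le_mul h3 h4 (Real.exp_pos _).le (by linarith)
    _ ≤ _ := h2

lemma Gp_two {N₁ N₂ N₃ m : ℕ} (h : nu2 (Bd N₁ N₂ N₃ m) 2 < 4) : 1 ≤ Gp N₁ N₂ N₃ m 2 := by
  have h1 : (nu2 (Bd N₁ N₂ N₃ m) 2 : ℝ) ≤ 3 := by exact_mod_cast (by omega : nu2 (Bd N₁ N₂ N₃ m) 2 ≤ 3)
  unfold Gp
  rw [le_div_iff₀ (by norm_num)]
  push_cast
  norm_num
  linarith

lemma Gp_three {N₁ N₂ N₃ m : ℕ} (h : nu2 (Bd N₁ N₂ N₃ m) 3 < 9) : 1 ≤ Gp N₁ N₂ N₃ m 3 := by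
  have h1 : (nu2 (Bd N₁ N₂ N₃ m) 3 : ℝ) ≤ 8 := by exact_mod_cast (by omega : nu2 (Bd N₁ N₂ N₃ m) 3 ≤ 8)
  unfold Gp
  rw [le_div_iff₀ (by norm_num)]
  push_cast
  norm_num
  linarith

lemma Sg_lower {N₁ N₂ N₃ m : ℕ} (h2 : nu2 (Bd N₁ N₂ N₃ m) 2 < 4) (h3 : nu2 (Bd N₁ N₂ N₃ m) 3 < 9) (z : ℕ) :
    Real.exp (-87) ≤ Sg z N₁ N₂ N₃ m := by
  have h1 : ∏ p ∈ pz z, Real.exp (-(87 * (1 / (p : ℝ)) ^ 2)) ≤ Sg z N₁ N₂ N₃ m := by
    unfold Sg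
    apply prod_le_prod (fun _ _ => (Real.exp_pos _).le)
    intro p hp
    have hpp := (mem_pz.1 hp).2
    rcases Nat.lt_or_ge p 5 with h | h
    · have h4 : Real.exp (-(87 * (1 / (p : ℝ)) ^ 2)) ≤ 1 := by
        rw [Real.exp_le_one_iff]
        have : 0 ≤ 87 * (1 / (p : ℝ)) ^ 2 := by positivity
        linarith
      refine h4.trans ?_
      interval_cases p
      · exact absurd hpp (by norm_num)
      · exact absurd hpp (by norm_num)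
      · exact Gp_two h2
      · exact Gp_three h3
      · exact absurd hpp (by norm_num)
    · exact Gp_lower hpp h
  refine le_trans ?_ h1
  rw [← Real.exp_sum, Real.exp_le_exp, sum_neg_distrib, ← mul_sum]
  have h4 : ∑ p ∈ pz z, (1 / (p : ℝ)) ^ 2 ≤ 1 := by
    rcases Nat.eq_zero_or_pos z with h | h
    · subst h
      have : pz 0 = ∅ := by
        ext p; rw [mem_pz]; simp; intro h; subst h; exact Nat.not_prime_zero
      rw [this]; simp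
    · have e := sum_Ioc_inv_sq_le_sub (α := ℝ) (k := 1) (n := z) one_ne_zero h
      have e2 : ∑ p ∈ pz z, (1 / (p : ℝ)) ^ 2 ≤ ∑ i ∈ Ioc 1 z, ((i : ℝ) ^ 2)⁻¹ := by
        calc _ ≤ ∑ i ∈ Ioc 1 z, (1 / (i : ℝ)) ^ 2 := by
              apply sum_le_sum_of_subset_of_nonneg _ (fun _ _ _ => by positivity)
              intro p hp
              rw [mem_pz] at hp
              rw [mem_Ioc]
              exact ⟨hp.2.one_lt, hp.1⟩
          _ = _ := by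
              refine sum_congr rfl fun i _ => ?_
              rw [one_div, inv_pow]
      have h5 : (0 : ℝ) ≤ (z : ℝ)⁻¹ := by positivity
      push_cast at e
      linarith
  linarith

lemma Gp_nonneg {N₁ N₂ N₃ m p : ℕ} (hp : p.Prime) : 0 ≤ Gp N₁ N₂ N₃ m p := by
  unfold Gp
  have h1 := den_pos hp
  exact div_nonneg (fac2 _ p hp).1 (by linarith)

lemma Sg_nonneg (z N₁ N₂ N₃ m : ℕ) : 0 ≤ Sg z N₁ N₂ N₃ m :=
  prod_nonneg fun _ hp => Gp_nonneg (mem_pz.1 hp).2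

lemma Sg_eq (z N₁ N₂ N₃ m : ℕ) : Sg z N₁ N₂ N₃ m = (∏ p ∈ pz z, (1 - (nu2 (Bd N₁ N₂ N₃ m) p : ℝ) / p ^ 2)) * ((Vz z)⁻¹) ^ 6 := by
  unfold Sg Gp Vz
  rw [prod_div_distrib, prod_pow, div_eq_mul_inv, inv_pow]

lemma Sg_upper (z N₁ N₂ N₃ m : ℕ) : Sg z N₁ N₂ N₃ m ≤ ((Vz z)⁻¹) ^ 6 := by
  rw [Sg_eq]
  have h1 : ∏ p ∈ pz z, (1 - (nu2 (Bd N₁ N₂ N₃ m) p : ℝ) / p ^ 2) ≤ 1 :=
    prod_le_one (fun p hp => (fac2 _ p (mem_pz.1 hp).2).1) (fun p hp => (fac2 _ p (mem_pz.1 hp).2).2)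
  have h2 : 0 ≤ ((Vz z)⁻¹) ^ 6 := by have := Vz_pos z; positivity
  calc _ ≤ 1 * ((Vz z)⁻¹) ^ 6 := mul_le_mul_of_nonneg_right h1 h2
    _ = _ := one_mul _

lemma card_pf (n : ℕ) (hn : 1 ≤ n) : (n.primeFactors.card : ℝ) * Real.log 2 ≤ Real.log n := by
  have h1 : 2 ^ n.primeFactors.card ≤ n := by
    calc 2 ^ n.primeFactors.card = ∏ _p ∈ n.primeFactors, 2 := by rw [prod_const]
      _ ≤ ∏ p ∈ n.primeFactors, p := prod_le_prod' fun p hp => (Nat.prime_of_mem_primeFactors hp).two_le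
      _ ≤ n := Nat.le_of_dvd hn (Nat.prod_primeFactors_dvd n)
  have h2 : Real.log ((2 : ℝ) ^ n.primeFactors.card) ≤ Real.log n :=
    Real.log_le_log (by positivity) (by exact_mod_cast h1)
  rwa [Real.log_pow] at h2

lemma Sg_near {X z N₁ N₂ N₃ m : ℕ} (hz : 1 ≤ z) (hzX : z ≤ X) (h₁ : N₁ ∈ Icc 1 X) (h₂ : N₂ ∈ Icc 1 X) (h₃ : N₃ ∈ Icc 1 X)
    (hs : 1024 + 2304 * Real.log X ≤ z) :
    |Sg X N₁ N₂ N₃ m - Sg z N₁ N₂ N₃ m| ≤ Sg z N₁ N₂ N₃ m * (2 * ((1024 + 2304 * Real.log X) / z)) := by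
  classical
  have hz0 : (0 : ℝ) < z := by exact_mod_cast hz
  set M := (pz X).filter (fun p => z < p) with hM
  have hsplit : pz X = pz z ∪ M := by
    ext p
    rw [mem_union, hM, mem_filter, mem_pz, mem_pz]
    constructor
    · rintro ⟨h1, h2⟩
      rcases Nat.lt_or_ge z p with h | h
      · exact Or.inr ⟨⟨h1, h2⟩, h⟩
      · exact Or.inl ⟨h, h2⟩
    · rintro (⟨h1, h2⟩ | ⟨h1, _⟩)
      · exact ⟨by omega, h2⟩
      · exact h1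
  have hdisj : Disjoint (pz z) M := by
    rw [disjoint_left]
    intro p hp hp'
    rw [hM, mem_filter] at hp'
    have := (mem_pz.1 hp).1
    omega
  have e1 : Sg X N₁ N₂ N₃ m = Sg z N₁ N₂ N₃ m * ∏ p ∈ M, Gp N₁ N₂ N₃ m p := by
    unfold Sg
    rw [hsplit, prod_union hdisj]
  have e2 : Sg X N₁ N₂ N₃ m - Sg z N₁ N₂ N₃ m = Sg z N₁ N₂ N₃ m * (∏ p ∈ M, Gp N₁ N₂ N₃ m p - 1) := by
    rw [e1]; ring
  rw [e2, abs_mul, abs_of_nonneg (Sg_nonneg _ _ _ _ _)]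
  apply mul_le_mul_of_nonneg_left _ (Sg_nonneg _ _ _ _ _)
  set B : ℝ := (1024 + 2304 * Real.log X) / z with hB
  have hX1 : 1 ≤ X := hz.trans hzX
  have hlX : 0 ≤ Real.log X := Real.log_nonneg (by exact_mod_cast hX1)
  have hB0 : 0 ≤ B := by positivity
  have hB1 : B ≤ 1 := by rw [hB, div_le_one hz0]; exact hs
  have hsum : ∑ p ∈ M, ‖Gp N₁ N₂ N₃ m p - 1‖ ≤ B := by
    have hcard : ((N₁.primeFactors ∪ N₂.primeFactors ∪ N₃.primeFactors).card : ℝ) ≤ 6 * Real.log X := by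
      have aux : ∀ N ∈ Icc 1 X, (N.primeFactors.card : ℝ) ≤ 2 * Real.log X := by
        intro N hN
        rw [mem_Icc] at hN
        have h1 := card_pf N hN.1
        have h2 : Real.log N ≤ Real.log X := Real.log_le_log (by exact_mod_cast hN.1) (by exact_mod_cast hN.2)
        have h3 := Real.log_two_gt_d9
        have h4 : (0 : ℝ) ≤ N.primeFactors.card := Nat.cast_nonneg _
        nlinarith
      have u1 := card_union_le (N₁.primeFactors ∪ N₂.primeFactors) N₃.primeFactors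
      have u2 := card_union_le N₁.primeFactors N₂.primeFactors
      have u3 : ((N₁.primeFactors ∪ N₂.primeFactors ∪ N₃.primeFactors).card : ℝ) ≤
          N₁.primeFactors.card + N₂.primeFactors.card + N₃.primeFactors.card := by exact_mod_cast (by omega)
      linarith [aux _ h₁, aux _ h₂, aux _ h₃]
    have hpt : ∀ p ∈ M, ‖Gp N₁ N₂ N₃ m p - 1‖ ≤ 1024 * ((p : ℝ) ^ 2)⁻¹ +
        (if p ∈ N₁.primeFactors ∪ N₂.primeFactors ∪ N₃.primeFactors then 384 * (1 / (z : ℝ)) else 0) := by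
      intro p hp
      rw [hM, mem_filter] at hp
      have hpp := (mem_pz.1 hp.1).2
      have hp0 : (0 : ℝ) < p := by exact_mod_cast hpp.pos
      rw [Real.norm_eq_abs]
      have hinv : (1 / (p : ℝ)) ^ 2 = ((p : ℝ) ^ 2)⁻¹ := by rw [one_div, inv_pow]
      by_cases h : p ∈ N₁.primeFactors ∪ N₂.primeFactors ∪ N₃.primeFactors
      · rw [if_pos h]
        have h4 : 1 / (p : ℝ) ≤ 1 / z := one_div_le_one_div_of_le hz0 (by exact_mod_cast hp.2.le)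
        have h5 : 0 ≤ 1024 * ((p : ℝ) ^ 2)⁻¹ := by positivity
        have := @Gp_near1 N₁ N₂ N₃ m p hpp
        linarith
      · rw [if_neg h, add_zero, ← hinv]
        rw [mem_union, mem_union, not_or, not_or] at h
        rw [mem_Icc] at h₁ h₂ h₃
        have k : ∀ N : ℕ, 1 ≤ N → p ∉ N.primeFactors → ¬ p ∣ N := fun N hN h h' =>
          h (Nat.mem_primeFactors.2 ⟨hpp, h', by omega⟩)
        exact Gp_near2 hpp (k _ h₁.1 h.1.1) (k _ h₂.1 h.1.2) (k _ h₃.1 h.2)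
    refine (sum_le_sum hpt).trans ?_
    rw [sum_add_distrib, ← mul_sum]
    have s1 : ∑ p ∈ M, ((p : ℝ) ^ 2)⁻¹ ≤ 1 / z := by
      have e := sum_Ioc_inv_sq_le_sub (α := ℝ) (k := z) (n := X) (by omega) hzX
      have e2 : ∑ p ∈ M, ((p : ℝ) ^ 2)⁻¹ ≤ ∑ i ∈ Ioc z X, ((i : ℝ) ^ 2)⁻¹ := by
        apply sum_le_sum_of_subset_of_nonneg _ (fun _ _ _ => by positivity)
        intro p hp
        rw [hM, mem_filter, mem_pz] at hp
        rw [mem_Ioc]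
        exact ⟨hp.2, hp.1.1⟩
      have h5 : (0 : ℝ) ≤ (X : ℝ)⁻¹ := by positivity
      rw [one_div]
      linarith
    have s2 : ∑ p ∈ M, (if p ∈ N₁.primeFactors ∪ N₂.primeFactors ∪ N₃.primeFactors then 384 * (1 / (z : ℝ)) else 0) ≤
        6 * Real.log X * (384 * (1 / z)) := by
      rw [← sum_filter, sum_const, nsmul_eq_mul]
      apply mul_le_mul_of_nonneg_right _ (by positivity)
      refine le_trans ?_ hcard
      have : M.filter (fun p => p ∈ N₁.primeFactors ∪ N₂.primeFactors ∪ N₃.primeFactors) ⊆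
          N₁.primeFactors ∪ N₂.primeFactors ∪ N₃.primeFactors := fun p hp => (mem_filter.1 hp).2
      exact_mod_cast card_le_card this
    have e3 : B = 1024 * (1 / z) + 6 * Real.log X * (384 * (1 / z)) := by
      rw [hB]; field_simp; ring
    rw [e3]
    linarith
  have key := Finset.norm_prod_one_add_sub_one_le M (fun p => Gp N₁ N₂ N₃ m p - 1)
  have e3 : ∏ p ∈ M, (1 + (Gp N₁ N₂ N₃ m p - 1)) = ∏ p ∈ M, Gp N₁ N₂ N₃ m p := by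
    refine prod_congr rfl fun p _ => by ring
  rw [e3, Real.norm_eq_abs] at key
  refine key.trans ?_
  have h6 : Real.exp (∑ p ∈ M, ‖Gp N₁ N₂ N₃ m p - 1‖) ≤ Real.exp B := Real.exp_le_exp.2 hsum
  have h7 : Real.exp B - 1 ≤ 2 * B := by
    have h8 := Real.abs_exp_sub_one_le (x := B) (by rw [abs_of_nonneg hB0]; exact hB1)
    rw [abs_of_nonneg hB0] at h8
    exact (le_abs_self _).trans h8
  linarith

end Pool.Agent.H76.VG
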