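import Pool.Agent.H76.VG.Tern
import Pool.Agent.H76.VG.Sing

set_option autoImplicit false

/-!
The ternary sums as sums over lattice points, and the sieve model.
-/

namespace Pool.Agent.H76.VG

open Finset
open Pool.Agent.E8helper81.GB (xt xt_out xt_in sum_cast)
open Pool.Agent.H373R2.T7 (lamz pz Vz Vz_pos lamz_nonneg mem_pz)

/-- the pairs `(a, b)` such that `a`, `b` and `c = m - a - b` are positive and less than `N₁`, `N₂`, `N₃` -/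
def PP (N₁ N₂ N₃ m : ℕ) : Finset (ℕ × ℕ) :=
  ((Ioo 0 N₁) ×ˢ (Ioo 0 N₂)).filter (fun t => t.1 + t.2 < m ∧ m < t.1 + t.2 + N₃)

lemma mem_PP {N₁ N₂ N₃ m a b : ℕ} : (a, b) ∈ PP N₁ N₂ N₃ m ↔ (0 < a ∧ a < N₁) ∧ (0 < b ∧ b < N₂) ∧ a + b < m ∧ m < a + b + N₃ := by
  unfold PP
  rw [mem_filter, mem_product, mem_Ioo, mem_Ioo]
  tauto

lemma PP_conv {N₁ N₂ N₃ m X : ℕ} (h₁ : N₁ ≤ X) (h₂ : N₂ ≤ X) : Conv (PP N₁ N₂ N₃ m) X := by
  refine ⟨?_, ?_, ?_⟩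
  · rintro ⟨a, b⟩ h
    rw [mem_PP] at h
    rw [mem_product, mem_Icc, mem_Icc]
    exact ⟨⟨by omega, by omega⟩, ⟨by omega, by omega⟩⟩
  · intro a
    by_cases ha : 0 < a ∧ a < N₁
    · refine ⟨m - a - N₃, min N₂ (m - a), fun b => ?_⟩
      rw [mem_PP, mem_Ioo]
      constructor
      · rintro ⟨_, h2, h3, h4⟩
        omega
      · rintro h
        omega
    · refine ⟨0, 0, fun b => ?_⟩
      rw [mem_PP, mem_Ioo]
      constructor
      · rintro ⟨h1, _⟩; exact absurd h1 ha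
      · rintro ⟨_, h2⟩; omega
  · intro b
    by_cases hb : 0 < b ∧ b < N₂
    · refine ⟨m - b - N₃, min N₁ (m - b), fun a => ?_⟩
      rw [mem_PP, mem_Ioo]
      constructor
      · rintro ⟨h1, _, h3, h4⟩
        omega
      · rintro h
        omega
    · refine ⟨0, 0, fun a => ?_⟩
      rw [mem_PP, mem_Ioo]
      constructor
      · rintro ⟨_, h1, _⟩; exact absurd h1 hb
      · rintro ⟨_, h2⟩; omega

/-- the product of the six values -/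
noncomputable def six6 (f : ℕ → ℝ) (N₁ N₂ N₃ m : ℕ) (t : ℕ × ℕ) : ℝ :=
  (f t.1 * f (N₁ - t.1)) * (f t.2 * f (N₂ - t.2)) * (f (m - t.1 - t.2) * f (N₃ - (m - t.1 - t.2)))

lemma xt_sub_val (X : ℕ) (f : ℕ → ℝ) (N a : ℕ) (hN : N ≤ X) (ha : a < N) : xt X f ((N : ℤ) - a) = f (N - a) := by
  rw [← Nat.cast_sub ha.le, xt_in _ _ _ (by omega) (by omega)]

lemma T3_PP (X : ℕ) (f : ℕ → ℝ) (N₁ N₂ N₃ m : ℕ) (h₁ : N₁ ≤ X) (h₂ : N₂ ≤ X) (h₃ : N₃ ≤ X) :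
    T3 X (fun a => ((xt X f a * xt X f (N₁ - a) : ℝ) : ℂ)) (fun a => ((xt X f a * xt X f (N₂ - a) : ℝ) : ℂ))
      (fun a => ((xt X f a * xt X f (N₃ - a) : ℝ) : ℂ)) m = ((∑ t ∈ PP N₁ N₂ N₃ m, six6 f N₁ N₂ N₃ m t : ℝ) : ℂ) := by
  unfold T3
  rw [← sum_cast X (fun a : ℤ => ∑ b ∈ Icc (1 : ℤ) X, ∑ c ∈ Icc (1 : ℤ) X, if a + b + c = (m : ℤ) then
    ((xt X f a * xt X f (N₁ - a) : ℝ) : ℂ) * ((xt X f b * xt X f (N₂ - b) : ℝ) : ℂ) *
      ((xt X f c * xt X f (N₃ - c) : ℝ) : ℂ) else 0)]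
  have h4 : ∀ a ∈ Icc 1 X, (∑ b ∈ Icc (1 : ℤ) X, ∑ c ∈ Icc (1 : ℤ) X, if (a : ℤ) + b + c = (m : ℤ) then
    ((xt X f a * xt X f (N₁ - a) : ℝ) : ℂ) * ((xt X f b * xt X f (N₂ - b) : ℝ) : ℂ) *
      ((xt X f c * xt X f (N₃ - c) : ℝ) : ℂ) else 0) =
      ∑ b ∈ Icc 1 X, if (a, b) ∈ PP N₁ N₂ N₃ m then ((six6 f N₁ N₂ N₃ m (a, b) : ℝ) : ℂ) else 0 := by
    intro a ha
    rw [mem_Icc] at ha
    rw [← sum_cast X (fun b : ℤ => ∑ c ∈ Icc (1 : ℤ) X, if (a : ℤ) + b + c = (m : ℤ) then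
      ((xt X f a * xt X f (N₁ - a) : ℝ) : ℂ) * ((xt X f b * xt X f (N₂ - b) : ℝ) : ℂ) *
      ((xt X f c * xt X f (N₃ - c) : ℝ) : ℂ) else 0)]
    refine sum_congr rfl fun b hb => ?_
    rw [mem_Icc] at hb
    by_cases h : (a, b) ∈ PP N₁ N₂ N₃ m
    · rw [if_pos h]
      rw [mem_PP] at h
      rw [sum_eq_single ((m : ℤ) - a - b)]
      · rw [if_pos (by ring)]
        unfold six6
        have e : (m : ℤ) - a - b = ((m - a - b : ℕ) : ℤ) := by omega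
        rw [e, xt_in X f a ha.1 ha.2, xt_in X f b hb.1 hb.2, xt_in X f (m - a - b) (by omega) (by omega),
          xt_sub_val X f N₁ a h₁ h.1.2, xt_sub_val X f N₂ b h₂ h.2.1.2, xt_sub_val X f N₃ (m - a - b) h₃ (by omega)]
        push_cast
        ring
      · intro c _ hc
        rw [if_neg (by omega)]
      · intro hc
        rw [mem_Icc] at hc
        omega
    · rw [if_neg h]
      refine sum_eq_zero fun c hc => ?_
      rw [mem_Icc] at hc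
      split_ifs with h'
      · rw [mem_PP] at h
        by_cases k1 : a < N₁
        · by_cases k2 : b < N₂
          · by_cases k3 : c < N₃
            · exfalso; apply h
              exact ⟨⟨by omega, k1⟩, ⟨by omega, k2⟩, by omega, by omega⟩
            · rw [xt_out X f (N₃ - c) (by omega)]; simp
          · rw [xt_out X f (N₂ - b) (by omega)]; simp
        · rw [xt_out X f (N₁ - a) (by omega)]; simp
      · rfl
  rw [sum_congr rfl h4, ← sum_product', Complex.ofReal_sum, ← sum_filter]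
  refine sum_congr ?_ fun t _ => rfl
  ext ⟨a, b⟩
  rw [mem_filter]
  constructor
  · rintro ⟨_, h⟩; exact h
  · intro h
    exact ⟨(PP_conv h₁ h₂).sub h, h⟩

open Classical in
lemma model_eq (z N₁ N₂ N₃ m : ℕ) : ∑ t ∈ PP N₁ N₂ N₃ m, six6 (lamz z) N₁ N₂ N₃ m t =
    ((Vz z)⁻¹) ^ 6 * (((PP N₁ N₂ N₃ m).filter (fun t => ∀ p ∈ pz z, ¬ Bd N₁ N₂ N₃ m p t.1 t.2)).card : ℝ) := by
  rw [card_filter, Nat.cast_sum, mul_sum]
  refine sum_congr rfl ?_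
  rintro ⟨a, b⟩ ht
  rw [mem_PP] at ht
  simp only
  have c1 : ((N₁ : ℤ) - a) = ((N₁ - a : ℕ) : ℤ) := by omega
  have c2 : ((N₂ : ℤ) - b) = ((N₂ - b : ℕ) : ℤ) := by omega
  have c3 : ((m : ℤ) - a - b) = ((m - a - b : ℕ) : ℤ) := by omega
  have c4 : ((N₃ : ℤ) - ((m - a - b : ℕ) : ℤ)) = ((N₃ - (m - a - b) : ℕ) : ℤ) := by omega
  have hB : ∀ p, Bd N₁ N₂ N₃ m p a b ↔ (p ∣ a ∨ p ∣ N₁ - a ∨ p ∣ b ∨ p ∣ N₂ - b ∨ p ∣ m - a - b ∨ p ∣ N₃ - (m - a - b)) := by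
    intro p
    unfold Bd
    rw [c1, c2, c3, c4]
    simp only [Int.natCast_dvd_natCast]
  unfold six6 lamz
  simp only
  by_cases h : ∀ p ∈ pz z, ¬ Bd N₁ N₂ N₃ m p a b
  · have h' : ∀ p ∈ pz z, ¬ (p ∣ a ∨ p ∣ N₁ - a ∨ p ∣ b ∨ p ∣ N₂ - b ∨ p ∣ m - a - b ∨ p ∣ N₃ - (m - a - b)) :=
      fun p hp hh => h p hp ((hB p).2 hh)
    rw [if_pos (fun p hp hh => h' p hp (Or.inl hh)), if_pos (fun p hp hh => h' p hp (Or.inr (Or.inl hh))),
      if_pos (fun p hp hh => h' p hp (Or.inr (Or.inr (Or.inl hh)))), if_pos (fun p hp hh => h' p hp (Or.inr (Or.inr (Or.inr (Or.inl hh))))),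
      if_pos (fun p hp hh => h' p hp (Or.inr (Or.inr (Or.inr (Or.inr (Or.inl hh)))))),
      if_pos (fun p hp hh => h' p hp (Or.inr (Or.inr (Or.inr (Or.inr (Or.inr hh)))))), if_pos h]
    push_cast
    ring
  · rw [if_neg h]
    push Not at h
    obtain ⟨p, hp, hb⟩ := h
    rw [hB] at hb
    rw [Nat.cast_zero, mul_zero]
    rcases hb with hb | hb | hb | hb | hb | hb
    · rw [if_neg (c := ∀ p ∈ pz z, ¬p ∣ a) (fun h => h p hp hb)]; ring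
    · rw [if_neg (c := ∀ p ∈ pz z, ¬p ∣ N₁ - a) (fun h => h p hp hb)]; ring
    · rw [if_neg (c := ∀ p ∈ pz z, ¬p ∣ b) (fun h => h p hp hb)]; ring
    · rw [if_neg (c := ∀ p ∈ pz z, ¬p ∣ N₂ - b) (fun h => h p hp hb)]; ring
    · rw [if_neg (c := ∀ p ∈ pz z, ¬p ∣ m - a - b) (fun h => h p hp hb)]; ring
    · rw [if_neg (c := ∀ p ∈ pz z, ¬p ∣ N₃ - (m - a - b)) (fun h => h p hp hb)]; ring

/-- the part of `Λ` on the prime powers -/
noncomputable def hh (n : ℕ) : ℝ := if n.Prime then 0 else ArithmeticFunction.vonMangoldt n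

lemma hh_nonneg (n : ℕ) : 0 ≤ hh n := by
  unfold hh
  split_ifs
  · exact le_rfl
  · exact ArithmeticFunction.vonMangoldt_nonneg

lemma hh_sum (X : ℕ) (hX : 1 ≤ X) : ∑ n ∈ Icc 1 X, hh n ≤ 2 * √(X : ℝ) * Real.log X := by
  have h1 := Chebyshev.psi_sub_theta_le (x := (X : ℝ)) (by exact_mod_cast hX)
  rw [Chebyshev.psi_sub_theta_eq_sum_not_prime, Nat.floor_natCast] at h1
  refine le_trans (le_of_eq ?_) h1
  rw [sum_filter]
  have : Icc 1 X = Ioc 0 X := by ext; simp [Nat.lt_iff_add_one_le]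
  rw [this]
  refine sum_congr rfl fun n _ => ?_
  unfold hh
  split_ifs <;> simp_all

/-- sums over lattice points of functions of one linear form -/
lemma inj_sum (S : Finset (ℕ × ℕ)) (X : ℕ) (φ ψ : ℕ × ℕ → ℕ) (h : ℕ → ℝ) (hh0 : ∀ n, 0 ≤ h n)
    (hφ : ∀ t ∈ S, φ t ∈ Icc 1 X) (hψ : ∀ t ∈ S, ψ t ∈ Icc 1 X)
    (hinj : ∀ t ∈ S, ∀ u ∈ S, φ t = φ u → ψ t = ψ u → t = u) :
    ∑ t ∈ S, h (φ t) ≤ X * ∑ n ∈ Icc 1 X, h n := by
  classical
  have h1 : ∑ t ∈ S, h (φ t) = ∑ u ∈ S.image (fun t => (φ t, ψ t)), h u.1 := by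
    rw [sum_image]
    intro t ht u hu e
    rw [Prod.mk.injEq] at e
    exact hinj t ht u hu e.1 e.2
  rw [h1]
  calc _ ≤ ∑ u ∈ Icc 1 X ×ˢ Icc 1 X, h u.1 := by
        apply sum_le_sum_of_subset_of_nonneg _ (fun _ _ _ => hh0 _)
        intro u hu
        rw [mem_image] at hu
        obtain ⟨t, ht, rfl⟩ := hu
        exact mem_product.2 ⟨hφ t ht, hψ t ht⟩
    _ = _ := by
        rw [sum_product]
        simp only [sum_const, Nat.card_Icc, nsmul_eq_mul, Nat.add_sub_cancel]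
        rw [← mul_sum]

/-- the six linear forms -/
lemma six_sum (N₁ N₂ N₃ m X : ℕ) (h₁ : N₁ ≤ X) (h₂ : N₂ ≤ X) (h₃ : N₃ ≤ X) (h : ℕ → ℝ) (hh0 : ∀ n, 0 ≤ h n) :
    ∑ t ∈ PP N₁ N₂ N₃ m, (h t.1 + h (N₁ - t.1) + h t.2 + h (N₂ - t.2) + h (m - t.1 - t.2) + h (N₃ - (m - t.1 - t.2))) ≤
      6 * (X * ∑ n ∈ Icc 1 X, h n) := by
  simp only [sum_add_distrib]
  have k1 := inj_sum (PP N₁ N₂ N₃ m) X (fun t => t.1) (fun t => t.2) h hh0
    (by rintro ⟨a, b⟩ ht; rw [mem_PP] at ht; simp only [mem_Icc]; omega)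
    (by rintro ⟨a, b⟩ ht; rw [mem_PP] at ht; simp only [mem_Icc]; omega)
    (by rintro ⟨a, b⟩ ht ⟨c, d⟩ hu e1 e2; simp only at e1 e2; rw [e1, e2])
  have k2 := inj_sum (PP N₁ N₂ N₃ m) X (fun t => N₁ - t.1) (fun t => t.2) h hh0
    (by rintro ⟨a, b⟩ ht; rw [mem_PP] at ht; simp only [mem_Icc]; omega)
    (by rintro ⟨a, b⟩ ht; rw [mem_PP] at ht; simp only [mem_Icc]; omega)
    (by rintro ⟨a, b⟩ ht ⟨c, d⟩ hu e1 e2; rw [mem_PP] at ht hu; simp only at e1 e2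
        rw [Prod.mk.injEq]; omega)
  have k3 := inj_sum (PP N₁ N₂ N₃ m) X (fun t => t.2) (fun t => t.1) h hh0
    (by rintro ⟨a, b⟩ ht; rw [mem_PP] at ht; simp only [mem_Icc]; omega)
    (by rintro ⟨a, b⟩ ht; rw [mem_PP] at ht; simp only [mem_Icc]; omega)
    (by rintro ⟨a, b⟩ ht ⟨c, d⟩ hu e1 e2; simp only at e1 e2; rw [e1, e2])
  have k4 := inj_sum (PP N₁ N₂ N₃ m) X (fun t => N₂ - t.2) (fun t => t.1) h hh0
    (by rintro ⟨a, b⟩ ht; rw [mem_PP] at ht; simp only [mem_Icc]; omega)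
    (by rintro ⟨a, b⟩ ht; rw [mem_PP] at ht; simp only [mem_Icc]; omega)
    (by rintro ⟨a, b⟩ ht ⟨c, d⟩ hu e1 e2; rw [mem_PP] at ht hu; simp only at e1 e2
        rw [Prod.mk.injEq]; omega)
  have k5 := inj_sum (PP N₁ N₂ N₃ m) X (fun t => m - t.1 - t.2) (fun t => t.1) h hh0
    (by rintro ⟨a, b⟩ ht; rw [mem_PP] at ht; simp only [mem_Icc]; omega)
    (by rintro ⟨a, b⟩ ht; rw [mem_PP] at ht; simp only [mem_Icc]; omega)
    (by rintro ⟨a, b⟩ ht ⟨c, d⟩ hu e1 e2; rw [mem_PP] at ht hu; simp only at e1 e2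
        rw [Prod.mk.injEq]; omega)
  have k6 := inj_sum (PP N₁ N₂ N₃ m) X (fun t => N₃ - (m - t.1 - t.2)) (fun t => t.1) h hh0
    (by rintro ⟨a, b⟩ ht; rw [mem_PP] at ht; simp only [mem_Icc]; omega)
    (by rintro ⟨a, b⟩ ht; rw [mem_PP] at ht; simp only [mem_Icc]; omega)
    (by rintro ⟨a, b⟩ ht ⟨c, d⟩ hu e1 e2; rw [mem_PP] at ht hu; simp only at e1 e2
        rw [Prod.mk.injEq]; omega)
  linarith

/-- the logarithm on the primes -/
noncomputable def lp (n : ℕ) : ℝ := if n.Prime then Real.log n else 0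

lemma vm_split (n : ℕ) : (ArithmeticFunction.vonMangoldt n : ℝ) = lp n + hh n := by
  unfold lp hh
  split_ifs with h
  · rw [ArithmeticFunction.vonMangoldt_apply_prime h, add_zero]
  · rw [zero_add]

lemma lp_nonneg (n : ℕ) : 0 ≤ lp n := by
  unfold lp
  split_ifs
  · exact Real.log_natCast_nonneg n
  · exact le_rfl

lemma vm_le {n X : ℕ} (h : n ∈ Icc 1 X) : (ArithmeticFunction.vonMangoldt n : ℝ) ≤ Real.log X := by
  rw [mem_Icc] at h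
  refine ArithmeticFunction.vonMangoldt_le_log.trans ?_
  exact Real.log_le_log (by exact_mod_cast h.1) (by exact_mod_cast h.2)

/-- the elementary inequality for products of six factors -/
lemma prod_six (L : ℝ) (hL : 0 ≤ L) (x y : Fin 6 → ℝ) (hx : ∀ i, 0 ≤ x i) (hxy : ∀ i, x i ≤ y i) (hy : ∀ i, y i ≤ L) :
    ∏ i, y i - ∏ i, x i ≤ L ^ 5 * ∑ i, (y i - x i) := by
  simp only [Fin.prod_univ_six, Fin.sum_univ_six]
  have hy0 : ∀ i, 0 ≤ y i := fun i => (hx i).trans (hxy i)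
  have hxL : ∀ i, x i ≤ L := fun i => (hxy i).trans (hy i)
  have hd : ∀ i, 0 ≤ y i - x i := fun i => sub_nonneg.2 (hxy i)
  have e : y 0 * y 1 * y 2 * y 3 * y 4 * y 5 - x 0 * x 1 * x 2 * x 3 * x 4 * x 5 =
    (y 0 - x 0) * (y 1 * y 2 * y 3 * y 4 * y 5) + (y 1 - x 1) * (x 0 * y 2 * y 3 * y 4 * y 5) +
    (y 2 - x 2) * (x 0 * x 1 * y 3 * y 4 * y 5) + (y 3 - x 3) * (x 0 * x 1 * x 2 * y 4 * y 5) +
    (y 4 - x 4) * (x 0 * x 1 * x 2 * x 3 * y 5) + (y 5 - x 5) * (x 0 * x 1 * x 2 * x 3 * x 4) := by ring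
  have five : ∀ a b c d f : ℝ, 0 ≤ a → a ≤ L → 0 ≤ b → b ≤ L → 0 ≤ c → c ≤ L → 0 ≤ d → d ≤ L → 0 ≤ f → f ≤ L →
      a * b * c * d * f ≤ L ^ 5 := by
    intro a b c d f a0 a1 b0 b1 c0 c1 d0 d1 f0 f1
    calc a * b * c * d * f ≤ L * L * L * L * L := by gcongr
      _ = L ^ 5 := by ring
  rw [e]
  have g0 := mul_le_mul_of_nonneg_left (five _ _ _ _ _ (hy0 1) (hy 1) (hy0 2) (hy 2) (hy0 3) (hy 3) (hy0 4) (hy 4) (hy0 5) (hy 5)) (hd 0)
  have g1 := mul_le_mul_of_nonneg_left (five _ _ _ _ _ (hx 0) (hxL 0) (hy0 2) (hy 2) (hy0 3) (hy 3) (hy0 4) (hy 4) (hy0 5) (hy 5)) (hd 1)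
  have g2 := mul_le_mul_of_nonneg_left (five _ _ _ _ _ (hx 0) (hxL 0) (hx 1) (hxL 1) (hy0 3) (hy 3) (hy0 4) (hy 4) (hy0 5) (hy 5)) (hd 2)
  have g3 := mul_le_mul_of_nonneg_left (five _ _ _ _ _ (hx 0) (hxL 0) (hx 1) (hxL 1) (hx 2) (hxL 2) (hy0 4) (hy 4) (hy0 5) (hy 5)) (hd 3)
  have g4 := mul_le_mul_of_nonneg_left (five _ _ _ _ _ (hx 0) (hxL 0) (hx 1) (hxL 1) (hx 2) (hxL 2) (hx 3) (hxL 3) (hy0 5) (hy 5)) (hd 4)
  have g5 := mul_le_mul_of_nonneg_left (five _ _ _ _ _ (hx 0) (hxL 0) (hx 1) (hxL 1) (hx 2) (hxL 2) (hx 3) (hxL 3) (hx 4) (hxL 4)) (hd 5)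
  linarith

lemma pow_diff (N₁ N₂ N₃ m X : ℕ) (hX : 1 ≤ X) (h₁ : N₁ ≤ X) (h₂ : N₂ ≤ X) (h₃ : N₃ ≤ X) :
    |∑ t ∈ PP N₁ N₂ N₃ m, six6 (fun n => ArithmeticFunction.vonMangoldt n) N₁ N₂ N₃ m t - ∑ t ∈ PP N₁ N₂ N₃ m, six6 lp N₁ N₂ N₃ m t| ≤
      Real.log X ^ 5 * (6 * (X * (2 * √(X : ℝ) * Real.log X))) := by
  have hL : 0 ≤ Real.log X := Real.log_natCast_nonneg X
  rw [← sum_sub_distrib]
  have hpt : ∀ t ∈ PP N₁ N₂ N₃ m, |six6 (fun n => ArithmeticFunction.vonMangoldt n) N₁ N₂ N₃ m t - six6 lp N₁ N₂ N₃ m t| ≤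
      Real.log X ^ 5 * (hh t.1 + hh (N₁ - t.1) + hh t.2 + hh (N₂ - t.2) + hh (m - t.1 - t.2) + hh (N₃ - (m - t.1 - t.2))) := by
    rintro ⟨a, b⟩ ht
    rw [mem_PP] at ht
    have q := prod_six (Real.log X) hL ![lp a, lp (N₁ - a), lp b, lp (N₂ - b), lp (m - a - b), lp (N₃ - (m - a - b))]
      ![ArithmeticFunction.vonMangoldt a, ArithmeticFunction.vonMangoldt (N₁ - a), ArithmeticFunction.vonMangoldt b,
        ArithmeticFunction.vonMangoldt (N₂ - b), ArithmeticFunction.vonMangoldt (m - a - b), ArithmeticFunction.vonMangoldt (N₃ - (m - a - b))]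
      (by intro i; fin_cases i <;> exact lp_nonneg _)
      (by intro i; fin_cases i <;> (simp; rw [vm_split]; linarith [hh_nonneg a, hh_nonneg (N₁ - a), hh_nonneg b, hh_nonneg (N₂ - b), hh_nonneg (m - a - b), hh_nonneg (N₃ - (m - a - b))]))
      (by intro i; fin_cases i <;> (simp; apply vm_le; rw [mem_Icc]; omega))
    have q0 := prod_le_prod (s := (univ : Finset (Fin 6))) (f := ![lp a, lp (N₁ - a), lp b, lp (N₂ - b), lp (m - a - b), lp (N₃ - (m - a - b))])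
      (g := ![ArithmeticFunction.vonMangoldt a, ArithmeticFunction.vonMangoldt (N₁ - a), ArithmeticFunction.vonMangoldt b,
        ArithmeticFunction.vonMangoldt (N₂ - b), ArithmeticFunction.vonMangoldt (m - a - b), ArithmeticFunction.vonMangoldt (N₃ - (m - a - b))])
      (by intro i _; fin_cases i <;> exact lp_nonneg _)
      (by intro i _; fin_cases i <;> (simp; rw [vm_split]; linarith [hh_nonneg a, hh_nonneg (N₁ - a), hh_nonneg b, hh_nonneg (N₂ - b), hh_nonneg (m - a - b), hh_nonneg (N₃ - (m - a - b))]))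
    simp only [Fin.prod_univ_six, Fin.sum_univ_six] at q q0
    simp [-tsub_le_iff_right] at q q0
    have e1 : six6 (fun n => ArithmeticFunction.vonMangoldt n) N₁ N₂ N₃ m (a, b) = ArithmeticFunction.vonMangoldt a * ArithmeticFunction.vonMangoldt (N₁ - a) * ArithmeticFunction.vonMangoldt b *
        ArithmeticFunction.vonMangoldt (N₂ - b) * ArithmeticFunction.vonMangoldt (m - a - b) * ArithmeticFunction.vonMangoldt (N₃ - (m - a - b)) := by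
      unfold six6; ring
    have e2 : six6 lp N₁ N₂ N₃ m (a, b) = lp a * lp (N₁ - a) * lp b * lp (N₂ - b) * lp (m - a - b) * lp (N₃ - (m - a - b)) := by
      unfold six6; ring
    rw [e1, e2, abs_of_nonneg (by linarith)]
    refine q.trans (le_of_eq ?_)
    have s := fun n => vm_split n
    rw [s a, s (N₁ - a), s b, s (N₂ - b), s (m - a - b), s (N₃ - (m - a - b))]
    ring
  refine (abs_sum_le_sum_abs _ _).trans ((sum_le_sum hpt).trans ?_)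
  rw [← mul_sum]
  apply mul_le_mul_of_nonneg_left _ (by positivity)
  refine (six_sum N₁ N₂ N₃ m X h₁ h₂ h₃ hh hh_nonneg).trans ?_
  have := hh_sum X hX
  gcongr

end Pool.Agent.H76.VG
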