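import Mathlib
import Pool.Graph.R_seed8.H373R2.T7.Cnt

set_option autoImplicit false

/-!
Counting lattice points in plane regions and in residue classes.
-/

namespace Pool.Agent.H76.VG

open Finset
open Pool.Agent.H373R2.T7 (count_class)

/-- equidistribution of an interval -/
lemma ioo_class (u v q c : ℕ) (hq : 1 ≤ q) :
    |(((Ioo u v).filter (fun n => n ≡ c [MOD q])).card : ℝ) - ((Ioo u v).card : ℝ) / q| ≤ 2 := by
  have hq0 : (0 : ℝ) < q := by exact_mod_cast hq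
  by_cases huv : u < v
  · have h1 := count_class (v - 1) q c hq
    have h2 := count_class u q c hq
    have e1 : (Icc 1 (v - 1)).filter (fun n => n ≡ c [MOD q]) =
        (Icc 1 u).filter (fun n => n ≡ c [MOD q]) ∪ (Ioo u v).filter (fun n => n ≡ c [MOD q]) := by
      ext n
      simp only [mem_filter, mem_union, mem_Icc, mem_Ioo]
      constructor
      · rintro ⟨h, h'⟩
        rcases Nat.lt_or_ge u n with h3 | h3
        · exact Or.inr ⟨by omega, h'⟩
        · exact Or.inl ⟨by omega, h'⟩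
      · rintro (⟨h, h'⟩ | ⟨h, h'⟩)
        · exact ⟨by omega, h'⟩
        · exact ⟨by omega, h'⟩
    have e2 : Disjoint ((Icc 1 u).filter (fun n => n ≡ c [MOD q])) ((Ioo u v).filter (fun n => n ≡ c [MOD q])) := by
      rw [disjoint_left]
      intro n hn hn'
      simp only [mem_filter, mem_Icc, mem_Ioo] at hn hn'
      omega
    rw [e1, card_union_of_disjoint e2] at h1
    have h3 : ((Ioo u v).card : ℝ) = ((v - 1 : ℕ) : ℝ) - u := by
      rw [Nat.card_Ioo, show v - u - 1 = (v - 1) - u by omega, Nat.cast_sub (by omega)]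
    rw [h3, sub_div]
    push_cast at h1
    rw [abs_le] at h1 h2 ⊢
    constructor <;> linarith [h1.1, h1.2, h2.1, h2.2]
  · have : Ioo u v = ∅ := Ioo_eq_empty_of_le (by omega)
    rw [this]
    simp

/-- every vertical and every horizontal section is an interval -/
structure Conv (S : Finset (ℕ × ℕ)) (X : ℕ) : Prop where
  sub : S ⊆ Icc 1 X ×ˢ Icc 1 X
  vert : ∀ a, ∃ u v, ∀ b, (a, b) ∈ S ↔ b ∈ Ioo u v
  hor : ∀ b, ∃ u v, ∀ a, (a, b) ∈ S ↔ a ∈ Ioo u v

lemma fib1 (S : Finset (ℕ × ℕ)) (X : ℕ) (hS : S ⊆ Icc 1 X ×ˢ Icc 1 X) :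
    S.card = ∑ a ∈ Icc 1 X, (S.filter (fun t => t.1 = a)).card :=
  card_eq_sum_card_fiberwise (fun t ht => (mem_product.1 (hS ht)).1)

lemma fib2 (S : Finset (ℕ × ℕ)) (X : ℕ) (hS : S ⊆ Icc 1 X ×ˢ Icc 1 X) :
    S.card = ∑ b ∈ Icc 1 X, (S.filter (fun t => t.2 = b)).card :=
  card_eq_sum_card_fiberwise (fun t ht => (mem_product.1 (hS ht)).2)

lemma sec1 (S : Finset (ℕ × ℕ)) (a u v : ℕ) (h : ∀ b, (a, b) ∈ S ↔ b ∈ Ioo u v) (P : ℕ → Prop) [DecidablePred P] :
    ((S.filter (fun t => P t.2)).filter (fun t => t.1 = a)).card = ((Ioo u v).filter P).card := by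
  refine card_nbij' (fun t => t.2) (fun b => (a, b)) ?_ ?_ ?_ ?_
  · rintro ⟨a', b⟩ ht
    simp only [coe_filter, mem_filter, Set.mem_ofPred_eq] at ht ⊢
    obtain ⟨⟨h1, h2⟩, rfl⟩ := ht
    exact ⟨(h b).1 h1, h2⟩
  · intro b hb
    simp only [coe_filter, mem_filter, Set.mem_ofPred_eq] at hb ⊢
    exact ⟨⟨(h b).2 hb.1, hb.2⟩, trivial⟩
  · rintro ⟨a', b⟩ ht
    simp only [coe_filter, mem_filter, Set.mem_ofPred_eq] at ht ⊢
    obtain ⟨_, rfl⟩ := ht
    rfl
  · intro b _; rfl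

lemma sec2 (S : Finset (ℕ × ℕ)) (b u v : ℕ) (h : ∀ a, (a, b) ∈ S ↔ a ∈ Ioo u v) (P : ℕ → Prop) [DecidablePred P] :
    ((S.filter (fun t => P t.1)).filter (fun t => t.2 = b)).card = ((Ioo u v).filter P).card := by
  refine card_nbij' (fun t => t.1) (fun a => (a, b)) ?_ ?_ ?_ ?_
  · rintro ⟨a, b'⟩ ht
    simp only [coe_filter, mem_filter, Set.mem_ofPred_eq] at ht ⊢
    obtain ⟨⟨h1, h2⟩, rfl⟩ := ht
    exact ⟨(h a).1 h1, h2⟩
  · intro a ha
    simp only [coe_filter, mem_filter, Set.mem_ofPred_eq] at ha ⊢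
    exact ⟨⟨(h a).2 ha.1, ha.2⟩, trivial⟩
  · rintro ⟨a, b'⟩ ht
    simp only [coe_filter, mem_filter, Set.mem_ofPred_eq] at ht ⊢
    obtain ⟨_, rfl⟩ := ht
    rfl
  · intro b _; rfl

/-- the points with the first coordinate in a class -/
lemma conv_one (S : Finset (ℕ × ℕ)) (X : ℕ) (hS : Conv S X) (q c : ℕ) (hq : 1 ≤ q) :
    |((S.filter (fun t => t.1 ≡ c [MOD q])).card : ℝ) - (S.card : ℝ) / q| ≤ 2 * X := by
  rw [fib2 _ X ((filter_subset _ _).trans hS.sub), fib2 S X hS.sub]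
  push_cast
  rw [sum_div, ← sum_sub_distrib]
  refine (abs_sum_le_sum_abs _ _).trans ?_
  calc _ ≤ ∑ b ∈ Icc 1 X, (2 : ℝ) := by
        refine sum_le_sum fun b _ => ?_
        obtain ⟨u, v, h⟩ := hS.hor b
        have e1 := sec2 S b u v h (fun n => n ≡ c [MOD q])
        have e2 := sec2 S b u v h (fun _ => True)
        rw [filter_true, filter_true] at e2
        rw [e1, e2]
        exact ioo_class u v q c hq
    _ = 2 * X := by rw [sum_const, Nat.card_Icc, nsmul_eq_mul]; simp [mul_comm]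

/-- equidistribution in residue classes -/
def Eq2 (S : Finset (ℕ × ℕ)) (W : ℝ) : Prop := ∀ q c d : ℕ, 1 ≤ q →
  |((S.filter (fun t => t.1 ≡ c [MOD q] ∧ t.2 ≡ d [MOD q])).card : ℝ) - (S.card : ℝ) / q ^ 2| ≤ W

lemma Conv.eq2 {S : Finset (ℕ × ℕ)} {X : ℕ} (hS : Conv S X) : Eq2 S (4 * X) := by
  intro q c d hq
  have hq0 : (0 : ℝ) < q := by exact_mod_cast hq
  have hq1 : (1 : ℝ) ≤ q := by exact_mod_cast hq
  have h1 := conv_one S X hS q c hq
  set S1 := S.filter (fun t => t.1 ≡ c [MOD q]) with hS1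
  have e0 : S.filter (fun t => t.1 ≡ c [MOD q] ∧ t.2 ≡ d [MOD q]) = S1.filter (fun t => t.2 ≡ d [MOD q]) := by
    rw [hS1, filter_filter]
  have hsub : S1 ⊆ Icc 1 X ×ˢ Icc 1 X := (filter_subset _ _).trans hS.sub
  have h2 : |((S1.filter (fun t => t.2 ≡ d [MOD q])).card : ℝ) - (S1.card : ℝ) / q| ≤ 2 * X := by
    rw [fib1 _ X ((filter_subset _ _).trans hsub), fib1 S1 X hsub]
    push_cast
    rw [sum_div, ← sum_sub_distrib]
    refine (abs_sum_le_sum_abs _ _).trans ?_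
    calc _ ≤ ∑ a ∈ Icc 1 X, (2 : ℝ) := by
          refine sum_le_sum fun a _ => ?_
          obtain ⟨u, v, h⟩ := hS.vert a
          by_cases ha : a ≡ c [MOD q]
          · have h3 : ∀ b, (a, b) ∈ S1 ↔ b ∈ Ioo u v := by
              intro b
              rw [hS1, mem_filter, ← h b]
              exact ⟨fun h => h.1, fun h => ⟨h, ha⟩⟩
            have e1 := sec1 S1 a u v h3 (fun n => n ≡ d [MOD q])
            have e2 := sec1 S1 a u v h3 (fun _ => True)
            rw [filter_true, filter_true] at e2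
            rw [e1, e2]
            exact ioo_class u v q d hq
          · have e1 : S1.filter (fun t => t.1 = a) = ∅ := by
              rw [filter_eq_empty_iff]
              intro t ht h'
              rw [hS1, mem_filter] at ht
              exact ha (h' ▸ ht.2)
            have e2 : (S1.filter (fun t => t.2 ≡ d [MOD q])).filter (fun t => t.1 = a) = ∅ := by
              rw [filter_eq_empty_iff]
              intro t ht h'
              rw [mem_filter, hS1, mem_filter] at ht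
              exact ha (h' ▸ ht.1.2)
            rw [e1, e2]; simp
      _ = 2 * X := by rw [sum_const, Nat.card_Icc, nsmul_eq_mul]; simp [mul_comm]
  rw [e0]
  have h3 : |(S1.card : ℝ) / q - (S.card : ℝ) / q ^ 2| ≤ 2 * X := by
    have e : (S1.card : ℝ) / q - (S.card : ℝ) / q ^ 2 = ((S1.card : ℝ) - (S.card : ℝ) / q) / q := by
      field_simp
    rw [e, abs_div, abs_of_pos hq0, div_le_iff₀ hq0]
    refine h1.trans ?_
    have : (0 : ℝ) ≤ 2 * X := by positivity
    nlinarith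
  calc _ ≤ |((S1.filter (fun t => t.2 ≡ d [MOD q])).card : ℝ) - (S1.card : ℝ) / q| + |(S1.card : ℝ) / q - (S.card : ℝ) / q ^ 2| :=
        abs_sub_le _ _ _
    _ ≤ _ := by linarith

/-- the Chinese remainder theorem for pairs -/
theorem count2 (A : ℕ → ℕ → ℕ → Prop) [∀ p a b, Decidable (A p a b)] (S : Finset (ℕ × ℕ)) (W : ℝ) (hS : Eq2 S W)
    (P : Finset ℕ) (hP : ∀ p ∈ P, p.Prime) :
    ∀ q : ℕ, 1 ≤ q → (∀ p ∈ P, ¬ p ∣ q) → ∀ c d : ℕ,
    |((S.filter (fun t => (t.1 ≡ c [MOD q] ∧ t.2 ≡ d [MOD q]) ∧ ∀ p ∈ P, A p (t.1 % p) (t.2 % p))).card : ℝ) -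
      (S.card : ℝ) / q ^ 2 * ∏ p ∈ P, ((((range p ×ˢ range p).filter (fun t => A p t.1 t.2)).card : ℝ) / p ^ 2)| ≤
      (∏ p ∈ P, (((range p ×ˢ range p).filter (fun t => A p t.1 t.2)).card : ℝ)) * W := by
  induction P using Finset.induction_on with
  | empty =>
    intro q hq _ c d
    have h := hS q c d hq
    simpa using h
  | insert p P hp ih =>
    intro q hq hdq c d
    have hpp := hP p (mem_insert_self _ _)
    have hP' : ∀ p' ∈ P, p'.Prime := fun p' h => hP p' (mem_insert_of_mem h)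
    have hpq : q.Coprime p := by
      rw [Nat.coprime_comm]
      exact (Nat.Prime.coprime_iff_not_dvd hpp).2 (hdq p (mem_insert_self _ _))
    have hp0 : (0 : ℝ) < p := by exact_mod_cast hpp.pos
    have hq0 : (0 : ℝ) < q := by exact_mod_cast hq
    rw [prod_insert hp, prod_insert hp]
    set ρ := (range p ×ˢ range p).filter (fun t => A p t.1 t.2) with hρ
    have hcr : ∀ n c a : ℕ, n ≡ (Nat.chineseRemainder hpq c a : ℕ) [MOD (q * p)] ↔ n ≡ c [MOD q] ∧ n ≡ a [MOD p] := by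
      intro n c a
      constructor
      · intro h
        have k1 := (Nat.chineseRemainder hpq c a).2.1
        have k2 := (Nat.chineseRemainder hpq c a).2.2
        exact ⟨(h.of_mul_right p).trans k1, (h.of_mul_left q).trans k2⟩
      · rintro ⟨h1, h2⟩
        exact Nat.chineseRemainder_modEq_unique hpq h1 h2
    have hmod : ∀ n a : ℕ, a < p → (n ≡ a [MOD p] ↔ n % p = a) := by
      intro n a ha
      unfold Nat.ModEq
      rw [Nat.mod_eq_of_lt ha]
    have h1 : (S.filter (fun t => (t.1 ≡ c [MOD q] ∧ t.2 ≡ d [MOD q]) ∧ ∀ p' ∈ insert p P, A p' (t.1 % p') (t.2 % p'))).card =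
        ∑ r ∈ ρ, (S.filter (fun t => (t.1 ≡ (Nat.chineseRemainder hpq c r.1 : ℕ) [MOD (q * p)] ∧
          t.2 ≡ (Nat.chineseRemainder hpq d r.2 : ℕ) [MOD (q * p)]) ∧
          ∀ p' ∈ P, A p' (t.1 % p') (t.2 % p'))).card := by
      rw [card_eq_sum_card_fiberwise (f := fun t => (t.1 % p, t.2 % p)) (t := ρ)]
      · apply sum_congr rfl
        rintro ⟨a, b⟩ hab
        rw [hρ, mem_filter, mem_product, mem_range, mem_range] at hab
        congr 1
        ext ⟨x, y⟩
        simp only [mem_filter, mem_insert, forall_eq_or_imp, hcr, Prod.mk.injEq]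
        rw [hmod x a hab.1.1, hmod y b hab.1.2]
        constructor
        · rintro ⟨⟨h1, ⟨h2, h3⟩, _, h5⟩, h6, h7⟩
          exact ⟨h1, ⟨⟨h2, h6⟩, h3, h7⟩, h5⟩
        · rintro ⟨h1, ⟨⟨h2, h6⟩, h3, h7⟩, h5⟩
          exact ⟨⟨h1, ⟨h2, h3⟩, by rw [h6, h7]; exact hab.2, h5⟩, h6, h7⟩
      · intro t ht
        simp only [coe_filter, mem_insert, forall_eq_or_imp, Set.mem_ofPred_eq] at ht
        rw [hρ]
        simp only [coe_filter, mem_product, mem_range, Set.mem_ofPred_eq]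
        exact ⟨⟨Nat.mod_lt _ hpp.pos, Nat.mod_lt _ hpp.pos⟩, ht.2.2.1⟩
    rw [h1]
    push_cast
    have h2 : (S.card : ℝ) / q ^ 2 * (((ρ.card : ℝ) / p ^ 2) * ∏ p' ∈ P, ((((range p' ×ˢ range p').filter (fun t => A p' t.1 t.2)).card : ℝ) / p' ^ 2)) =
        ∑ r ∈ ρ, (S.card : ℝ) / ((q * p : ℕ) : ℝ) ^ 2 * ∏ p' ∈ P, ((((range p' ×ˢ range p').filter (fun t => A p' t.1 t.2)).card : ℝ) / p' ^ 2) := by
      rw [sum_const, nsmul_eq_mul]
      push_cast
      rw [mul_pow, ← div_div]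
      ring
    rw [h2, ← sum_sub_distrib]
    refine (abs_sum_le_sum_abs _ _).trans ?_
    have h3 : ∀ r ∈ ρ, |((S.filter (fun t => (t.1 ≡ (Nat.chineseRemainder hpq c r.1 : ℕ) [MOD (q * p)] ∧
          t.2 ≡ (Nat.chineseRemainder hpq d r.2 : ℕ) [MOD (q * p)]) ∧
          ∀ p' ∈ P, A p' (t.1 % p') (t.2 % p'))).card : ℝ) -
        (S.card : ℝ) / ((q * p : ℕ) : ℝ) ^ 2 * ∏ p' ∈ P, ((((range p' ×ˢ range p').filter (fun t => A p' t.1 t.2)).card : ℝ) / p' ^ 2)| ≤
        (∏ p' ∈ P, (((range p' ×ˢ range p').filter (fun t => A p' t.1 t.2)).card : ℝ)) * W := by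
      intro r _
      apply ih hP' (q * p) (Nat.mul_pos hq hpp.pos)
      intro p' hp' hd
      have hp'p := hP' p' hp'
      rcases (Nat.Prime.dvd_mul hp'p).1 hd with h | h
      · exact hdq p' (mem_insert_of_mem hp') h
      · rw [Nat.prime_dvd_prime_iff_eq hp'p hpp] at h
        exact hp (h ▸ hp')
    refine (sum_le_sum h3).trans ?_
    rw [sum_const, nsmul_eq_mul, mul_assoc]

end Pool.Agent.H76.VG
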