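import Pool.Agent.H76.VG.Fin

set_option autoImplicit false

/-!
Reformulation with triples.
-/

namespace Pool.Agent.H76.VG

open Finset

/-- The triples `(a, b, c)` of positive integers with `a < N₁`, `b < N₂`, `c < N₃` and `a + b + c = m`. -/
def Rep (N₁ N₂ N₃ m : ℕ) : Finset (ℕ × ℕ × ℕ) :=
  (Ioo 0 N₁ ×ˢ Ioo 0 N₂ ×ˢ Ioo 0 N₃).filter (fun t => t.1 + t.2.1 + t.2.2 = m)

/-- The triples `(a, b, c)` in `Rep N₁ N₂ N₃ m` such that `a`, `b`, `c`, `N₁ - a`, `N₂ - b`, `N₃ - c` are prime. -/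
def GRep (N₁ N₂ N₃ m : ℕ) : Finset (ℕ × ℕ × ℕ) :=
  (Rep N₁ N₂ N₃ m).filter (fun t => t.1.Prime ∧ (N₁ - t.1).Prime ∧ t.2.1.Prime ∧ (N₂ - t.2.1).Prime ∧
    t.2.2.Prime ∧ (N₃ - t.2.2).Prime)

/-- The number of the solutions of `a + b + c ≡ m` modulo `p` such that `p` does not divide any of
`a`, `N₁ - a`, `b`, `N₂ - b`, `c`, `N₃ - c` (for a prime `p`). -/
def loc (N₁ N₂ N₃ m p : ℕ) : ℕ :=
  ((range p ×ˢ range p ×ˢ range p).filter (fun t => t.1 + t.2.1 + t.2.2 ≡ m [MOD p] ∧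
    ¬ (p : ℤ) ∣ t.1 * (N₁ - t.1) * t.2.1 * (N₂ - t.2.1) * t.2.2 * (N₃ - t.2.2))).card

lemma mem_Rep {N₁ N₂ N₃ m a b c : ℕ} : (a, b, c) ∈ Rep N₁ N₂ N₃ m ↔ ((0 < a ∧ a < N₁) ∧ (0 < b ∧ b < N₂) ∧ (0 < c ∧ c < N₃)) ∧ a + b + c = m := by
  unfold Rep
  simp only [mem_filter, mem_product, mem_Ioo]

lemma Rep_card (N₁ N₂ N₃ m : ℕ) : (Rep N₁ N₂ N₃ m).card = (PP N₁ N₂ N₃ m).card := by
  refine card_nbij' (fun t => (t.1, t.2.1)) (fun t => (t.1, t.2, m - t.1 - t.2)) ?_ ?_ ?_ ?_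
  · rintro ⟨a, b, c⟩ h
    rw [mem_coe, mem_Rep] at h
    show (a, b) ∈ PP N₁ N₂ N₃ m
    rw [mem_PP]
    omega
  · rintro ⟨a, b⟩ h
    rw [mem_coe, mem_PP] at h
    show (a, b, m - a - b) ∈ Rep N₁ N₂ N₃ m
    rw [mem_Rep]
    omega
  · rintro ⟨a, b, c⟩ h
    rw [mem_coe, mem_Rep] at h
    simp only [Prod.mk.injEq, true_and]
    omega
  · rintro ⟨a, b⟩ _
    rfl

open Classical in
lemma GRep_card (N₁ N₂ N₃ m : ℕ) : (GRep N₁ N₂ N₃ m).card = ((PP N₁ N₂ N₃ m).filter (SixP N₁ N₂ N₃ m)).card := by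
  refine card_nbij' (fun t => (t.1, t.2.1)) (fun t => (t.1, t.2, m - t.1 - t.2)) ?_ ?_ ?_ ?_
  · rintro ⟨a, b, c⟩ h
    unfold GRep at h
    rw [mem_coe, mem_filter, mem_Rep] at h
    obtain ⟨h1, h2⟩ := h
    simp only at h2
    show (a, b) ∈ (PP N₁ N₂ N₃ m).filter (SixP N₁ N₂ N₃ m)
    rw [mem_filter, mem_PP]
    refine ⟨by omega, ?_⟩
    unfold SixP
    simp only
    have : m - a - b = c := by omega
    rw [this]
    exact h2
  · rintro ⟨a, b⟩ h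
    rw [mem_coe, mem_filter, mem_PP] at h
    unfold GRep
    rw [mem_coe, mem_filter, mem_Rep]
    exact ⟨by omega, h.2⟩
  · rintro ⟨a, b, c⟩ h
    unfold GRep at h
    rw [mem_coe, mem_filter, mem_Rep] at h
    simp only [Prod.mk.injEq, true_and]
    omega
  · rintro ⟨a, b⟩ _
    rfl

open Classical in
lemma GRep_sum (N₁ N₂ N₃ m : ℕ) : ∑ t ∈ GRep N₁ N₂ N₃ m, (Real.log t.1 * Real.log ((N₁ - t.1 : ℕ) : ℝ)) *
    (Real.log t.2.1 * Real.log ((N₂ - t.2.1 : ℕ) : ℝ)) * (Real.log t.2.2 * Real.log ((N₃ - t.2.2 : ℕ) : ℝ)) =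
    ∑ t ∈ PP N₁ N₂ N₃ m, six6 lp N₁ N₂ N₃ m t := by
  have hR : ∑ t ∈ PP N₁ N₂ N₃ m, six6 lp N₁ N₂ N₃ m t = ∑ t ∈ (PP N₁ N₂ N₃ m).filter (SixP N₁ N₂ N₃ m), six6 lp N₁ N₂ N₃ m t := by
    rw [sum_filter]
    refine sum_congr rfl fun t _ => ?_
    split_ifs with h
    · rfl
    · exact six6_lp_zero h
  rw [hR]
  refine sum_nbij' (fun t => (t.1, t.2.1)) (fun t => (t.1, t.2, m - t.1 - t.2)) ?_ ?_ ?_ ?_ ?_
  · rintro ⟨a, b, c⟩ h
    unfold GRep at h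
    rw [mem_filter, mem_Rep] at h
    obtain ⟨h1, h2⟩ := h
    simp only at h2
    show (a, b) ∈ (PP N₁ N₂ N₃ m).filter (SixP N₁ N₂ N₃ m)
    rw [mem_filter, mem_PP]
    refine ⟨by omega, ?_⟩
    unfold SixP
    simp only
    have : m - a - b = c := by omega
    rw [this]
    exact h2
  · rintro ⟨a, b⟩ h
    rw [mem_filter, mem_PP] at h
    unfold GRep
    rw [mem_filter, mem_Rep]
    exact ⟨by omega, h.2⟩
  · rintro ⟨a, b, c⟩ h
    unfold GRep at h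
    rw [mem_filter, mem_Rep] at h
    simp only [Prod.mk.injEq, true_and]
    omega
  · rintro ⟨a, b⟩ _
    rfl
  · rintro ⟨a, b, c⟩ h
    unfold GRep at h
    rw [mem_filter, mem_Rep] at h
    obtain ⟨h1, h2⟩ := h
    simp only at h2
    simp only
    have e : m - a - b = c := by omega
    unfold six6 lp
    simp only
    rw [e, if_pos h2.1, if_pos h2.2.1, if_pos h2.2.2.1, if_pos h2.2.2.2.1, if_pos h2.2.2.2.2.1, if_pos h2.2.2.2.2.2]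

lemma Bd_prod {N₁ N₂ N₃ m p a b : ℕ} (hp : p.Prime) (c : ℤ) (hc : (p : ℤ) ∣ (m - a - b) - c) : Bd N₁ N₂ N₃ m p a b ↔
    (p : ℤ) ∣ a * (N₁ - a) * b * (N₂ - b) * c * (N₃ - c) := by
  have hp' : Prime (p : ℤ) := Nat.prime_iff_prime_int.1 hp
  have aux : ∀ x y : ℤ, (p : ℤ) ∣ x - y → ((p : ℤ) ∣ x ↔ (p : ℤ) ∣ y) := fun x y h => dvd_iff_dvd_of_dvd_sub h
  rw [hp'.dvd_mul, hp'.dvd_mul, hp'.dvd_mul, hp'.dvd_mul, hp'.dvd_mul]
  unfold Bd
  rw [aux _ _ hc, aux (N₃ - (m - a - b)) (N₃ - c) (by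
    have := dvd_neg.2 hc
    have e : ((N₃ : ℤ) - (m - a - b)) - (N₃ - c) = -((m - a - b) - c) := by ring
    rw [e]; exact this)]
  tauto

lemma loc_nu2 (N₁ N₂ N₃ m p : ℕ) (hp : p.Prime) : nu2 (Bd N₁ N₂ N₃ m) p + loc N₁ N₂ N₃ m p = p ^ 2 := by
  classical
  have h1 := card_filter_add_card_filter_not (s := range p ×ˢ range p) (fun t : ℕ × ℕ => Bd N₁ N₂ N₃ m p t.1 t.2)
  rw [card_product, card_range] at h1
  have h2 : nu2 (Bd N₁ N₂ N₃ m) p = ((range p ×ˢ range p).filter (fun t : ℕ × ℕ => Bd N₁ N₂ N₃ m p t.1 t.2)).card := by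
    unfold nu2
    congr 1
  have hp0 : (0 : ℤ) < p := by exact_mod_cast hp.pos
  have hcr : ∀ a b : ℕ, ((((m : ℤ) - a - b) % p).toNat : ℤ) = ((m : ℤ) - a - b) % p := fun a b =>
    Int.toNat_of_nonneg (Int.emod_nonneg _ hp0.ne')
  have hdv : ∀ a b : ℕ, (p : ℤ) ∣ ((m : ℤ) - a - b) - ((((m : ℤ) - a - b) % p).toNat : ℤ) := by
    intro a b
    rw [hcr]
    exact Int.dvd_self_sub_emod
  have hlt : ∀ a b : ℕ, (((m : ℤ) - a - b) % p).toNat < p := by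
    intro a b
    have := Int.emod_lt_of_pos ((m : ℤ) - a - b) hp0
    have h := hcr a b
    omega
  have hmod : ∀ a b c : ℕ, a + b + c ≡ m [MOD p] ↔ (p : ℤ) ∣ ((m : ℤ) - a - b) - c := by
    intro a b c
    rw [Nat.modEq_iff_dvd]
    push_cast
    constructor
    · intro h
      have e : ((m : ℤ) - a - b) - c = m - (a + b + c) := by ring
      rw [e]; exact h
    · intro h
      have e : (m : ℤ) - (a + b + c) = ((m : ℤ) - a - b) - c := by ring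
      rw [e]; exact h
  have h3 : loc N₁ N₂ N₃ m p =
      ((range p ×ˢ range p).filter (fun t : ℕ × ℕ => ¬ Bd N₁ N₂ N₃ m p t.1 t.2)).card := by
    unfold loc
    refine card_nbij' (fun t => (t.1, t.2.1)) (fun t => (t.1, t.2, (((m : ℤ) - t.1 - t.2) % p).toNat)) ?_ ?_ ?_ ?_
    · rintro ⟨a, b, c⟩ ht
      simp only [coe_filter, Set.mem_ofPred_eq, mem_product, mem_range] at ht ⊢
      obtain ⟨⟨h1, h2, h3⟩, h4, h5⟩ := ht
      refine ⟨⟨h1, h2⟩, fun h6 => h5 ?_⟩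
      exact (Bd_prod hp (c : ℤ) ((hmod a b c).1 h4)).1 h6
    · rintro ⟨a, b⟩ ht
      simp only [coe_filter, Set.mem_ofPred_eq, mem_product, mem_range] at ht ⊢
      refine ⟨⟨ht.1.1, ht.1.2, hlt a b⟩, (hmod _ _ _).2 (hdv a b), fun h6 => ht.2 ?_⟩
      exact (Bd_prod hp _ (hdv a b)).2 h6
    · rintro ⟨a, b, c⟩ ht
      simp only [coe_filter, Set.mem_ofPred_eq, mem_product, mem_range] at ht
      obtain ⟨⟨h1, h2, h3⟩, h4, h5⟩ := ht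
      simp only [Prod.mk.injEq, true_and]
      have k1 := (hmod a b c).1 h4
      have k2 := hdv a b
      have k3 : (p : ℤ) ∣ (c : ℤ) - ((((m : ℤ) - a - b) % p).toNat : ℤ) := by
        have := dvd_sub k2 k1
        have e : (c : ℤ) - ((((m : ℤ) - a - b) % p).toNat : ℤ) = (((m : ℤ) - a - b) - ((((m : ℤ) - a - b) % p).toNat : ℤ)) - (((m : ℤ) - a - b) - c) := by ring
        rw [e]; exact this
      have k4 := hlt a b
      have k5 : ((c : ℤ) - ((((m : ℤ) - a - b) % p).toNat : ℤ)) = 0 := by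
        apply Int.eq_zero_of_abs_lt_dvd k3
        rw [abs_lt]
        constructor <;> omega
      omega
    · rintro ⟨a, b⟩ _
      rfl
  rw [h2, h3, sq]
  exact h1

/-- The singular series, truncated at `X`. -/
noncomputable def sing (X N₁ N₂ N₃ m : ℕ) : ℝ :=
  ∏ p ∈ (Icc 1 X).filter Nat.Prime, ((loc N₁ N₂ N₃ m p : ℝ) / p ^ 2) / (1 - 1 / (p : ℝ)) ^ 6

lemma sing_eq (X N₁ N₂ N₃ m : ℕ) : sing X N₁ N₂ N₃ m = Sg X N₁ N₂ N₃ m := by
  unfold sing Sg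
  refine prod_congr rfl fun p hp => ?_
  have hpp := (mem_filter.1 hp).2
  unfold Gp
  have h := loc_nu2 N₁ N₂ N₃ m p hpp
  have h' : (nu2 (Bd N₁ N₂ N₃ m) p : ℝ) + loc N₁ N₂ N₃ m p = p ^ 2 := by exact_mod_cast h
  have hp0 : (p : ℝ) ≠ 0 := by exact_mod_cast hpp.ne_zero
  congr 1
  have e : (loc N₁ N₂ N₃ m p : ℝ) = p ^ 2 - nu2 (Bd N₁ N₂ N₃ m) p := by linarith
  rw [e]
  field_simp

end Pool.Agent.H76.VG
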