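import Pool.Agent.H76.VG.MainW

set_option autoImplicit false

/-!
The number of the representations, without weights.
-/

namespace Pool.Agent.H76.VG

open Finset
open Pool.Agent.E8helper66.GB (S_U3)

/-- the six numbers are prime -/
def SixP (N₁ N₂ N₃ m : ℕ) (t : ℕ × ℕ) : Prop :=
  t.1.Prime ∧ (N₁ - t.1).Prime ∧ t.2.Prime ∧ (N₂ - t.2).Prime ∧ (m - t.1 - t.2).Prime ∧ (N₃ - (m - t.1 - t.2)).Prime

lemma six6_lp_zero {N₁ N₂ N₃ m : ℕ} {t : ℕ × ℕ} (h : ¬ SixP N₁ N₂ N₃ m t) : six6 lp N₁ N₂ N₃ m t = 0 := by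
  unfold SixP at h
  unfold six6 lp
  by_cases h1 : t.1.Prime
  · by_cases h2 : (N₁ - t.1).Prime
    · by_cases h3 : t.2.Prime
      · by_cases h4 : (N₂ - t.2).Prime
        · by_cases h5 : (m - t.1 - t.2).Prime
          · by_cases h6 : (N₃ - (m - t.1 - t.2)).Prime
            · exact absurd ⟨h1, h2, h3, h4, h5, h6⟩ h
            · rw [if_neg h6]; ring
          · rw [if_neg h5]; ring
        · rw [if_neg h4]; ring
      · rw [if_neg h3]; ring
    · rw [if_neg h2]; ring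
  · rw [if_neg h1]; ring

lemma six_mono (x y₁ y₂ y₃ y₄ y₅ y₆ : ℝ) (hx : 0 ≤ x) (h₁ : x ≤ y₁) (h₂ : x ≤ y₂) (h₃ : x ≤ y₃) (h₄ : x ≤ y₄)
    (h₅ : x ≤ y₅) (h₆ : x ≤ y₆) : x ^ 6 ≤ (y₁ * y₂) * (y₃ * y₄) * (y₅ * y₆) := by
  have z1 : 0 ≤ y₁ := hx.trans h₁
  have z2 : 0 ≤ y₂ := hx.trans h₂
  have z3 : 0 ≤ y₃ := hx.trans h₃
  have z4 : 0 ≤ y₄ := hx.trans h₄
  have z5 : 0 ≤ y₅ := hx.trans h₅
  have z6 : 0 ≤ y₆ := hx.trans h₆
  calc x ^ 6 = (x * x) * (x * x) * (x * x) := by ring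
    _ ≤ _ := by gcongr

lemma ev_exp (c : ℝ) (hc : 0 < c) : ∃ N0 : ℕ, ∀ N : ℕ, N0 ≤ N → 6 * (Real.log N ^ 6 * Real.exp (-√(Real.log N))) ≤ c := by
  apply ev_nat
  have h1 : Filter.Tendsto (fun x : ℝ => x ^ 12 * Real.exp (-x)) Filter.atTop (nhds 0) :=
    Real.tendsto_pow_mul_exp_neg_atTop_nhds_zero 12
  have h2 : Filter.Tendsto (fun N : ℕ => √(Real.log (N : ℝ))) Filter.atTop Filter.atTop :=
    Real.tendsto_sqrt_atTop.comp (Real.tendsto_log_atTop.comp (tendsto_natCast_atTop_atTop (R := ℝ)))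
  have h3 := (h1.comp h2).eventually (ge_mem_nhds (show (0 : ℝ) < c / 6 by positivity))
  filter_upwards [h3, Filter.eventually_ge_atTop 1] with N hN hN1
  simp only [Function.comp] at hN
  have h4 : 0 ≤ Real.log N := Real.log_natCast_nonneg N
  have h5 : √(Real.log (N : ℝ)) ^ 12 = Real.log N ^ 6 := by
    rw [show (12 : ℕ) = 2 * 6 by norm_num, pow_mul, Real.sq_sqrt h4]
  rw [h5] at hN
  linarith

open Classical in
lemma unweight (N₁ N₂ N₃ m X : ℕ) (hX : 3 ≤ X) (h₁ : N₁ ≤ X) (h₂ : N₂ ≤ X) (h₃ : N₃ ≤ X) :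
    ∑ t ∈ PP N₁ N₂ N₃ m, six6 lp N₁ N₂ N₃ m t ≤ (((PP N₁ N₂ N₃ m).filter (SixP N₁ N₂ N₃ m)).card : ℝ) * Real.log X ^ 6 ∧
    (((PP N₁ N₂ N₃ m).filter (SixP N₁ N₂ N₃ m)).card : ℝ) * (Real.log X - √(Real.log X)) ^ 6 ≤
      ∑ t ∈ PP N₁ N₂ N₃ m, six6 lp N₁ N₂ N₃ m t + X ^ 2 * (6 * (Real.log X ^ 6 * Real.exp (-√(Real.log X)))) := by
  have hX0 : (0 : ℝ) < X := by exact_mod_cast (by omega : 0 < X)
  set L := Real.log X with hL
  have hL1 : 1 ≤ L := by
    rw [hL, Real.le_log_iff_exp_le hX0]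
    have := Real.exp_one_lt_d9
    have : (3 : ℝ) ≤ X := by exact_mod_cast hX
    linarith
  have hsq : √L ≤ L := by
    rw [Real.sqrt_le_left (by linarith)]
    nlinarith
  have hs0 : 0 ≤ √L := Real.sqrt_nonneg L
  have hR : ∑ t ∈ PP N₁ N₂ N₃ m, six6 lp N₁ N₂ N₃ m t = ∑ t ∈ (PP N₁ N₂ N₃ m).filter (SixP N₁ N₂ N₃ m), six6 lp N₁ N₂ N₃ m t := by
    rw [sum_filter]
    refine sum_congr rfl fun t _ => ?_
    split_ifs with h
    · rfl
    · exact six6_lp_zero h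
  have hlp : ∀ n ∈ Icc 1 X, lp n ≤ L := by
    intro n hn
    unfold lp
    rw [mem_Icc] at hn
    split_ifs
    · exact Real.log_le_log (by exact_mod_cast hn.1) (by exact_mod_cast hn.2)
    · linarith
  have prod_le : ∀ (f g : ℕ → ℝ) (S : Finset ℕ), (∀ n, 0 ≤ f n) → (∀ n ∈ S, f n ≤ g n) → ∀ a b c d e k : ℕ, a ∈ S → b ∈ S → c ∈ S → d ∈ S → e ∈ S → k ∈ S →
      (f a * f b) * (f c * f d) * (f e * f k) ≤ (g a * g b) * (g c * g d) * (g e * g k) := by
    intro f g S h0 hfg a b c d e k ha hb hc hd he hk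
    have g0 : ∀ n ∈ S, 0 ≤ g n := fun n hn => (h0 n).trans (hfg n hn)
    have q1 := hfg a ha
    have q2 := hfg b hb
    have q3 := hfg c hc
    have q4 := hfg d hd
    have q5 := hfg e he
    have q6 := hfg k hk
    have z1 := h0 a
    have z2 := h0 b
    have z3 := h0 c
    have z4 := h0 d
    have z5 := h0 e
    have z6 := h0 k
    have w1 := g0 a ha
    have w2 := g0 b hb
    have w3 := g0 c hc
    have w4 := g0 d hd
    have w5 := g0 e he
    have w6 := g0 k hk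
    gcongr
  constructor
  · rw [hR]
    calc _ ≤ ∑ t ∈ (PP N₁ N₂ N₃ m).filter (SixP N₁ N₂ N₃ m), L ^ 6 := by
          refine sum_le_sum ?_
          rintro ⟨a, b⟩ ht
          rw [mem_filter, mem_PP] at ht
          have h := prod_le lp (fun _ => L) (Icc 1 X) lp_nonneg hlp a (N₁ - a) b (N₂ - b) (m - a - b) (N₃ - (m - a - b))
            (by rw [mem_Icc]; omega) (by rw [mem_Icc]; omega) (by rw [mem_Icc]; omega) (by rw [mem_Icc]; omega)
            (by rw [mem_Icc]; omega) (by rw [mem_Icc]; omega)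
          unfold six6
          refine h.trans (le_of_eq (by ring))
      _ = _ := by rw [sum_const, nsmul_eq_mul]
  · -- the cut
    set Y : ℝ := Real.exp (L - √L) with hY
    set h : ℕ → ℝ := fun n => if (n : ℝ) ≤ Y then 1 else 0 with hh'
    have hh0 : ∀ n, 0 ≤ h n := by
      intro n
      simp only [hh']
      split_ifs <;> norm_num
    have hLs : 0 ≤ L - √L := by linarith
    have hpt : ∀ t ∈ (PP N₁ N₂ N₃ m).filter (SixP N₁ N₂ N₃ m), (L - √L) ^ 6 ≤ six6 lp N₁ N₂ N₃ m t +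
        L ^ 6 * (h t.1 + h (N₁ - t.1) + h t.2 + h (N₂ - t.2) + h (m - t.1 - t.2) + h (N₃ - (m - t.1 - t.2))) := by
      rintro ⟨a, b⟩ ht
      rw [mem_filter, mem_PP] at ht
      obtain ⟨ht, hp1, hp2, hp3, hp4, hp5, hp6⟩ := ht
      simp only at hp1 hp2 hp3 hp4 hp5 hp6
      simp only
      have hsix0 : 0 ≤ six6 lp N₁ N₂ N₃ m (a, b) := by
        unfold six6
        have := lp_nonneg
        have z1 := this a
        have z2 := this (N₁ - a)
        have z3 := this b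
        have z4 := this (N₂ - b)
        have z5 := this (m - a - b)
        have z6 := this (N₃ - (m - a - b))
        positivity
      by_cases hc : 1 ≤ h a + h (N₁ - a) + h b + h (N₂ - b) + h (m - a - b) + h (N₃ - (m - a - b))
      · have h1 : (L - √L) ^ 6 ≤ L ^ 6 := pow_le_pow_left₀ hLs (by linarith) 6
        have h2 : 0 ≤ L ^ 6 := by positivity
        nlinarith
      · push Not at hc
        have one : ∀ n, h n = 0 ∨ h n = 1 := by
          intro n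
          simp only [hh']
          split_ifs <;> simp
        have key : ∀ n, n.Prime → h n < 1 → L - √L ≤ lp n := by
          intro n hn hn1
          have : ¬ (n : ℝ) ≤ Y := by
            intro h'
            simp only [hh'] at hn1
            rw [if_pos h'] at hn1
            exact lt_irrefl _ hn1
          push Not at this
          unfold lp
          rw [if_pos hn, Real.le_log_iff_exp_le (by exact_mod_cast hn.pos)]
          exact this.le
        have n1 := hh0 a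
        have n2 := hh0 (N₁ - a)
        have n3 := hh0 b
        have n4 := hh0 (N₂ - b)
        have n5 := hh0 (m - a - b)
        have n6 := hh0 (N₃ - (m - a - b))
        have e1 := key a hp1 (by linarith)
        have e2 := key (N₁ - a) hp2 (by linarith)
        have e3 := key b hp3 (by linarith)
        have e4 := key (N₂ - b) hp4 (by linarith)
        have e5 := key (m - a - b) hp5 (by linarith)
        have e6 := key (N₃ - (m - a - b)) hp6 (by linarith)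
        have e7 : (L - √L) ^ 6 ≤ six6 lp N₁ N₂ N₃ m (a, b) := by
          unfold six6
          exact six_mono _ _ _ _ _ _ _ hLs e1 e2 e3 e4 e5 e6
        have e8 : 0 ≤ L ^ 6 * (h a + h (N₁ - a) + h b + h (N₂ - b) + h (m - a - b) + h (N₃ - (m - a - b))) := by positivity
        linarith
    have hsum := sum_le_sum hpt
    rw [sum_const, nsmul_eq_mul, sum_add_distrib, ← hR, ← mul_sum] at hsum
    refine hsum.trans ?_
    apply add_le_add le_rfl
    have h1 : ∑ t ∈ (PP N₁ N₂ N₃ m).filter (SixP N₁ N₂ N₃ m), (h t.1 + h (N₁ - t.1) + h t.2 + h (N₂ - t.2) + h (m - t.1 - t.2) + h (N₃ - (m - t.1 - t.2))) ≤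
        6 * (X * ∑ n ∈ Icc 1 X, h n) := by
      refine le_trans ?_ (six_sum N₁ N₂ N₃ m X h₁ h₂ h₃ h hh0)
      apply sum_le_sum_of_subset_of_nonneg (filter_subset _ _)
      intro t _ _
      have := hh0
      have z1 := this t.1
      have z2 := this (N₁ - t.1)
      have z3 := this t.2
      have z4 := this (N₂ - t.2)
      have z5 := this (m - t.1 - t.2)
      have z6 := this (N₃ - (m - t.1 - t.2))
      positivity
    have h2 : ∑ n ∈ Icc 1 X, h n ≤ Y := by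
      simp only [hh']
      rw [← sum_filter, sum_const, nsmul_eq_mul, mul_one]
      have h3 : ((Icc 1 X).filter (fun n : ℕ => (n : ℝ) ≤ Y)) ⊆ Icc 1 ⌊Y⌋₊ := by
        intro n hn
        rw [mem_filter, mem_Icc] at hn
        rw [mem_Icc]
        exact ⟨hn.1.1, Nat.le_floor hn.2⟩
      have h4 := card_le_card h3
      rw [Nat.card_Icc, Nat.add_sub_cancel] at h4
      have h5 : (((Icc 1 X).filter (fun n : ℕ => (n : ℝ) ≤ Y)).card : ℝ) ≤ (⌊Y⌋₊ : ℝ) := by exact_mod_cast h4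
      exact h5.trans (Nat.floor_le (Real.exp_pos _).le)
    have hYX : Y = X * Real.exp (-√L) := by
      rw [hY, sub_eq_add_neg, Real.exp_add, hL, Real.exp_log hX0]
    calc L ^ 6 * _ ≤ L ^ 6 * (6 * (X * (X * Real.exp (-√L)))) := by
          rw [← hYX]
          apply mul_le_mul_of_nonneg_left _ (by positivity)
          refine h1.trans ?_
          gcongr
      _ = _ := by ring

open Classical in
theorem main_u (hU3 : S_U3) (A : ℕ) (ε : ℝ) (hε : 0 < ε) : ∃ X₀ : ℕ, ∀ X : ℕ, X₀ ≤ X → ∃ E ⊆ Icc 1 X, (E.card : ℝ) ≤ X / Real.log X ^ A ∧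
    ∀ N₁ ∈ Icc 1 X, N₁ ∉ E → ∀ N₂ ∈ Icc 1 X, N₂ ∉ E → ∀ N₃ ∈ Icc 1 X, N₃ ∉ E → ∀ m : ℕ,
      |∑ t ∈ PP N₁ N₂ N₃ m, six6 lp N₁ N₂ N₃ m t - Sg X N₁ N₂ N₃ m * (PP N₁ N₂ N₃ m).card| ≤ X ^ 2 / Real.log X ^ A ∧
      (nu2 (Bd N₁ N₂ N₃ m) 2 < 4 → nu2 (Bd N₁ N₂ N₃ m) 3 < 9 → Real.exp (-87) ≤ Sg X N₁ N₂ N₃ m ∧
        (ε * X ^ 2 ≤ (PP N₁ N₂ N₃ m).card → |(((PP N₁ N₂ N₃ m).filter (SixP N₁ N₂ N₃ m)).card : ℝ) -
          Sg X N₁ N₂ N₃ m * (PP N₁ N₂ N₃ m).card / Real.log X ^ 6| ≤ ε * (Sg X N₁ N₂ N₃ m * (PP N₁ N₂ N₃ m).card / Real.log X ^ 6))) := by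
  obtain ⟨n1, h1⟩ := main_w hU3 (A + 1)
  set c1 : ℝ := Real.exp (-87) * ε with hc1
  have hc10 : 0 < c1 := by positivity
  obtain ⟨n2, h2⟩ := ev_log (max 1 (8 / (ε * c1)))
  obtain ⟨n3, h3⟩ := ev_exp (ε / 8 * c1) (by positivity)
  obtain ⟨n4, h4⟩ := ev_log ((8 * (1 + ε) / ε) ^ 2 * 36)
  refine ⟨n1 + n2 + n3 + n4 + 3, fun X hX => ?_⟩
  have hX0 : (0 : ℝ) < X := by exact_mod_cast (by omega : 0 < X)
  obtain ⟨E, hE, hEc, hEx⟩ := h1 X (by omega)
  have a2 := h2 X (by omega)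
  have a3 := h3 X (by omega)
  have a4 := h4 X (by omega)
  set L := Real.log X with hL
  have hL1 : 1 ≤ L := (le_max_left _ _).trans a2
  have hL8 : 8 / (ε * c1) ≤ L := (le_max_right _ _).trans a2
  have hL0 : 0 < L := by linarith
  have hpow : (X : ℝ) / L ^ (A + 1) ≤ X / L ^ A := by
    apply div_le_div_of_nonneg_left hX0.le (by positivity)
    exact pow_le_pow_right₀ hL1 (by omega)
  have hpow2 : (X : ℝ) ^ 2 / L ^ (A + 1) ≤ X ^ 2 / L ^ A := by
    apply div_le_div_of_nonneg_left (by positivity) (by positivity)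
    exact pow_le_pow_right₀ hL1 (by omega)
  refine ⟨E, hE, hEc.trans hpow, ?_⟩
  intro N₁ hN₁ hN₁E N₂ hN₂ hN₂E N₃ hN₃ hN₃E m
  have key := hEx N₁ hN₁ hN₁E N₂ hN₂ hN₂E N₃ hN₃ hN₃E m
  refine ⟨key.trans hpow2, fun k2 k3 => ⟨Sg_lower k2 k3 X, fun hV => ?_⟩⟩
  have l₁ := (mem_Icc.1 hN₁).2
  have l₂ := (mem_Icc.1 hN₂).2
  have l₃ := (mem_Icc.1 hN₃).2
  have hSg := @Sg_lower N₁ N₂ N₃ m k2 k3 X
  obtain ⟨u1, u2⟩ := unweight N₁ N₂ N₃ m X (by omega) l₁ l₂ l₃
  rw [← hL] at u1 u2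
  set S := Sg X N₁ N₂ N₃ m with hS
  set V : ℝ := ((PP N₁ N₂ N₃ m).card : ℝ) with hVd
  set r : ℝ := (((PP N₁ N₂ N₃ m).filter (SixP N₁ N₂ N₃ m)).card : ℝ) with hr
  set R := ∑ t ∈ PP N₁ N₂ N₃ m, six6 lp N₁ N₂ N₃ m t with hR
  set W := S * V with hW
  have hr0 : 0 ≤ r := Nat.cast_nonneg _
  have hWX : c1 * X ^ 2 ≤ W := by
    rw [hc1, hW, mul_assoc]
    exact mul_le_mul hSg hV (by positivity) ((Real.exp_pos _).le.trans hSg)
  have hW0 : 0 < W := lt_of_lt_of_le (by positivity) hWX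
  have b1 : (X : ℝ) ^ 2 / L ^ (A + 1) ≤ ε / 8 * W := by
    have e1 : (X : ℝ) ^ 2 / L ^ (A + 1) ≤ X ^ 2 / L := by
      apply div_le_div_of_nonneg_left (by positivity) hL0
      calc L = L ^ 1 := (pow_one L).symm
        _ ≤ L ^ (A + 1) := pow_le_pow_right₀ hL1 (by omega)
    refine e1.trans ?_
    rw [div_le_iff₀ hL0]
    rw [div_le_iff₀ (by positivity)] at hL8
    have e2 : 0 < (X : ℝ) ^ 2 := by positivity
    have e3 : ε / 8 * (c1 * X ^ 2) * L ≤ ε / 8 * W * L := by gcongr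
    nlinarith
  have b2 : (X : ℝ) ^ 2 * (6 * (L ^ 6 * Real.exp (-√L))) ≤ ε / 8 * W := by
    calc _ ≤ (X : ℝ) ^ 2 * (ε / 8 * c1) := mul_le_mul_of_nonneg_left a3 (by positivity)
      _ = ε / 8 * (c1 * X ^ 2) := by ring
      _ ≤ _ := by gcongr
  rw [abs_le] at key
  have b3 : R ≤ W + ε / 8 * W := by linarith [key.2]
  have b4 : W - ε / 8 * W ≤ R := by linarith [key.1]
  -- upper bound
  have hL6 : 0 < L ^ 6 := by positivity
  have hss : √L * √L = L := Real.mul_self_sqrt hL0.le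
  have hs0 : 0 < √L := Real.sqrt_pos.2 hL0
  have hsL : 6 * (8 * (1 + ε) / ε) ≤ √L := by
    rw [Real.le_sqrt (by positivity) hL0.le]
    refine le_trans (le_of_eq ?_) a4
    ring
  have hx : 6 * (1 / √L) ≤ ε / (8 * (1 + ε)) := by
    rw [mul_one_div, div_le_div_iff₀ hs0 (by positivity)]
    have := mul_le_mul_of_nonneg_right hsL hε.le
    have e : 6 * (8 * (1 + ε) / ε) * ε = 6 * (8 * (1 + ε)) := by field_simp
    rw [e] at this
    linarith
  have hx0 : 0 ≤ 1 / √L := by positivity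
  have hε1 : ε / (8 * (1 + ε)) ≤ 1 / 8 := by
    rw [div_le_div_iff₀ (by positivity) (by norm_num)]
    nlinarith
  have b5 : (L - √L) ^ 6 = L ^ 6 * (1 - 1 / √L) ^ 6 := by
    have : L - √L = L * (1 - 1 / √L) := by
      field_simp
      nlinarith
    rw [this, mul_pow]
  have b6 := (six (1 / √L) hx0 (by linarith)).1
  have b7 : r * (L ^ 6 * (1 - 6 * (1 / √L))) ≤ W + ε / 4 * W := by
    calc r * (L ^ 6 * (1 - 6 * (1 / √L))) ≤ r * (L - √L) ^ 6 := by
          rw [b5]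
          apply mul_le_mul_of_nonneg_left _ hr0
          exact mul_le_mul_of_nonneg_left b6 hL6.le
      _ ≤ _ := u2
      _ ≤ _ := by linarith
  have b8 : r * L ^ 6 ≤ (1 + ε) * W := by
    have e1 : r * L ^ 6 * (1 - ε / (8 * (1 + ε))) ≤ W + ε / 4 * W := by
      refine le_trans ?_ b7
      have : 0 ≤ r * L ^ 6 := by positivity
      nlinarith
    have e2 : (W + ε / 4 * W) ≤ ((1 + ε) * W) * (1 - ε / (8 * (1 + ε))) := by
      have e3 : ((1 + ε) * W) * (1 - ε / (8 * (1 + ε))) = (1 + ε) * W - ε / 8 * W := by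
        field_simp
      rw [e3]
      nlinarith
    have e4 : 0 < 1 - ε / (8 * (1 + ε)) := by linarith
    exact le_of_mul_le_mul_right (e1.trans e2) e4
  have b9 : (1 - ε) * W ≤ r * L ^ 6 := by nlinarith
  rw [abs_le]
  constructor
  · have : -(ε * (W / L ^ 6)) + W / L ^ 6 ≤ r := by
      have e : -(ε * (W / L ^ 6)) + W / L ^ 6 = ((1 - ε) * W) / L ^ 6 := by ring
      rw [e, div_le_iff₀ hL6]
      exact b9
    linarith
  · have : r ≤ ε * (W / L ^ 6) + W / L ^ 6 := by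
      have e : ε * (W / L ^ 6) + W / L ^ 6 = ((1 + ε) * W) / L ^ 6 := by ring
      rw [e, le_div_iff₀ hL6]
      exact b8
    linarith

end Pool.Agent.H76.VG
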