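import Pool.Agent.H76.VG.Lat
import Pool.Graph.R_seed8.H373R2.T7.Fund
import Pool.Graph.R_seed8.H20R2.EN.FLem

set_option autoImplicit false

/-!
The fundamental lemma of the sieve in two variables.
-/

namespace Pool.Agent.H76.VG

open Finset
open Pool.Agent.H373R2.T7 (pz mem_pz JJ JJ_lt JJ_le JJ_small prod_inj)

open Classical in
/-- the number of bad pairs of classes -/
noncomputable def nu2 (Q : ℕ → ℕ → ℕ → Prop) (p : ℕ) : ℕ := ((range p ×ˢ range p).filter (fun t => Q p t.1 t.2)).card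

/-- periodic conditions with few bad pairs of classes -/
structure Per2 (Q : ℕ → ℕ → ℕ → Prop) (κ : ℕ) : Prop where
  per : ∀ p a b, Q p a b ↔ Q p (a % p) (b % p)
  few : ∀ p, p.Prime → nu2 Q p ≤ κ * p

lemma nu2_le (Q : ℕ → ℕ → ℕ → Prop) (p : ℕ) : nu2 Q p ≤ p ^ 2 := by
  classical
  unfold nu2
  refine (card_filter_le _ _).trans ?_
  rw [card_product, card_range, sq]

lemma fac2 (Q : ℕ → ℕ → ℕ → Prop) (p : ℕ) (hp : p.Prime) : 0 ≤ 1 - (nu2 Q p : ℝ) / p ^ 2 ∧ 1 - (nu2 Q p : ℝ) / p ^ 2 ≤ 1 := by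
  have hp0 : (0 : ℝ) < p := by exact_mod_cast hp.pos
  constructor
  · have h1 : (nu2 Q p : ℝ) / p ^ 2 ≤ 1 := by
      rw [div_le_one (by positivity)]; exact_mod_cast nu2_le Q p
    linarith
  · have : 0 ≤ (nu2 Q p : ℝ) / p ^ 2 := by positivity
    linarith

set_option maxHeartbeats 1000000 in
open Classical in
theorem fund2_raw (κ : ℕ) : ∃ C0 K0 z1 : ℕ, 1 ≤ C0 ∧ ∀ (b y : ℕ), C0 ≤ b → z1 ≤ y →
    ∀ Q : ℕ → ℕ → ℕ → Prop, Per2 Q κ → ∀ (S : Finset (ℕ × ℕ)) (W : ℝ), 0 ≤ W → Eq2 S W →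
    |((S.filter (fun t => ∀ p ∈ pz y, ¬ Q p t.1 t.2)).card : ℝ) - S.card * ∏ p ∈ pz y, (1 - (nu2 Q p : ℝ) / p ^ 2)| ≤
      (1 / 2 : ℝ) ^ b * S.card + (y : ℝ) ^ (6 * (C0 * b) + 2) * K0 * W := by
  obtain ⟨C0, hC0, hFL⟩ := Pool.Agent.H20R2.fLem κ
  set z0 := C0 + κ with hz0
  set K0 : ℕ := ∏ p ∈ pz z0, p with hK0
  refine ⟨C0, K0 ^ 2, z0 + 3, hC0, fun b y hbC hyz Q hQ S W hW hS => ?_⟩
  have hb1' : 1 ≤ b := hC0.trans hbC
  have hCb : 1 ≤ C0 * b := Nat.mul_pos hC0 hb1'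
  set J := JJ y with hJ
  set Y : ℕ := 2 ^ 2 ^ J with hY
  have hyY : y < Y := JJ_lt y
  have hYy : Y ≤ y ^ 2 := JJ_le y (by omega)
  set D : ℕ := Y ^ (C0 * b) with hD
  set P : Finset ℕ := (pz y).filter (fun p => z0 < p) with hP
  have hPp : ∀ p ∈ P, p.Prime ∧ z0 < p ∧ p ≤ Y := by
    intro p hp
    rw [hP, mem_filter] at hp
    exact ⟨(mem_pz.1 hp.1).2, hp.2, ((mem_pz.1 hp.1).1.trans hyY.le)⟩
  have hpzy : pz y = pz z0 ∪ P := by
    ext p
    rw [mem_union, hP, mem_filter, mem_pz, mem_pz]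
    constructor
    · rintro ⟨h1, h2⟩
      rcases Nat.lt_or_ge z0 p with h | h
      · exact Or.inr ⟨⟨h1, h2⟩, h⟩
      · exact Or.inl ⟨h, h2⟩
    · rintro (⟨h1, h2⟩ | ⟨h1, _⟩)
      · exact ⟨by omega, h2⟩
      · exact h1
  have hdisj : Disjoint (pz z0) P := by
    rw [disjoint_left]
    intro p hp hp'
    rw [hP, mem_filter] at hp'
    have := (mem_pz.1 hp).1
    omega
  have hpz0 : ∀ p ∈ pz z0, p.Prime := fun p hp => (mem_pz.1 hp).2
  set A0 : ℝ := ∏ p ∈ pz z0, (1 - (nu2 Q p : ℝ) / p ^ 2) with hA0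
  have hA00 : 0 ≤ A0 := prod_nonneg fun p hp => (fac2 Q p (hpz0 p hp)).1
  set S0 := S.filter (fun t => ∀ p ∈ pz z0, ¬ Q p t.1 t.2) with hS0
  set en : ℕ × ℕ ↪ ℕ := Nat.pairEquiv.toEmbedding with hen
  have key := hFL b J z0 P (fun p => (nu2 Q p : ℝ) / p ^ 2) hbC (by omega) hPp (fun p hp => by
      have hp0 : (0 : ℝ) < p := by exact_mod_cast (hPp p hp).1.pos
      have hp1 : (1 : ℝ) < p := by exact_mod_cast (hPp p hp).1.one_lt
      refine ⟨by positivity, ?_⟩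
      have h1 : (nu2 Q p : ℝ) ≤ κ * p := by exact_mod_cast hQ.few p (hPp p hp).1
      calc (nu2 Q p : ℝ) / p ^ 2 ≤ ((κ : ℝ) * p) / p ^ 2 := by gcongr
        _ = (κ : ℝ) / p := by field_simp
        _ ≤ (κ : ℝ) / ((p : ℝ) - 1) := by
          apply div_le_div_of_nonneg_left (Nat.cast_nonneg _) (by linarith) (by linarith))
    (S0.map en) (fun _ => (1 : ℝ)) (fun p n => Q p (Nat.unpair n).1 (Nat.unpair n).2) (S.card * A0) (fun _ => (K0 : ℝ) ^ 2 * D ^ 2 * W)
    (fun _ _ => zero_le_one) (mul_nonneg (Nat.cast_nonneg _) hA00) (by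
      intro T hT hTD
      have hTp : ∀ p ∈ T, p.Prime := fun p hp => (hPp p (hT hp)).1
      have hdT : Disjoint (pz z0) T := disjoint_of_subset_right hT hdisj
      have h3 := count2 (fun p a b => if p ≤ z0 then ¬ Q p a b else Q p a b) S W hS (pz z0 ∪ T) (fun p hp => by
        rcases mem_union.1 hp with h | h
        · exact hpz0 p h
        · exact hTp p h) 1 le_rfl (fun p hp hd => by
          have hpp : p.Prime := by
            rcases mem_union.1 hp with h | h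
            · exact hpz0 p h
            · exact hTp p h
          exact hpp.one_lt.ne' (Nat.dvd_one.1 hd)) 0 0
      have hTz : ∀ p ∈ T, ¬ p ≤ z0 := fun p hp => by have := (hPp p (hT hp)).2.1; omega
      have c1 : ∀ p ∈ pz z0, (((range p ×ˢ range p).filter (fun t : ℕ × ℕ => if p ≤ z0 then ¬ Q p t.1 t.2 else Q p t.1 t.2)).card : ℝ) = p ^ 2 - nu2 Q p := by
        intro p hp
        simp only [if_pos (mem_pz.1 hp).1]
        have h4 := card_filter_add_card_filter_not (s := range p ×ˢ range p) (fun t : ℕ × ℕ => Q p t.1 t.2)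
        rw [card_product, card_range] at h4
        have h6 : nu2 Q p + ((range p ×ˢ range p).filter (fun t : ℕ × ℕ => ¬ Q p t.1 t.2)).card = p * p := h4
        have h7 : (nu2 Q p : ℝ) + (((range p ×ˢ range p).filter (fun t : ℕ × ℕ => ¬ Q p t.1 t.2)).card : ℝ) = p * p := by exact_mod_cast h6
        linarith
      have c2 : ∀ p ∈ T, (((range p ×ˢ range p).filter (fun t : ℕ × ℕ => if p ≤ z0 then ¬ Q p t.1 t.2 else Q p t.1 t.2)).card : ℝ) = nu2 Q p := by
        intro p hp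
        simp only [if_neg (hTz p hp)]
        rfl
      rw [prod_union hdT, prod_union hdT] at h3
      have e1 : ∏ p ∈ pz z0, ((((range p ×ˢ range p).filter (fun t : ℕ × ℕ => if p ≤ z0 then ¬ Q p t.1 t.2 else Q p t.1 t.2)).card : ℝ) / p ^ 2) = A0 := by
        apply prod_congr rfl
        intro p hp
        rw [c1 p hp]
        have hp0 : (p : ℝ) ≠ 0 := by exact_mod_cast (hpz0 p hp).ne_zero
        field_simp
      have e2 : ∏ p ∈ T, ((((range p ×ˢ range p).filter (fun t : ℕ × ℕ => if p ≤ z0 then ¬ Q p t.1 t.2 else Q p t.1 t.2)).card : ℝ) / p ^ 2) = ∏ p ∈ T, ((nu2 Q p : ℝ) / p ^ 2) := by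
        apply prod_congr rfl
        intro p hp
        rw [c2 p hp]
      have e3 : ∏ p ∈ pz z0, (((range p ×ˢ range p).filter (fun t : ℕ × ℕ => if p ≤ z0 then ¬ Q p t.1 t.2 else Q p t.1 t.2)).card : ℝ) ≤ (K0 : ℝ) ^ 2 := by
        rw [hK0]
        push_cast
        rw [← prod_pow]
        apply prod_le_prod (fun _ _ => Nat.cast_nonneg _)
        intro p hp
        rw [c1 p hp]
        have : (0 : ℝ) ≤ nu2 Q p := Nat.cast_nonneg _
        linarith
      have e4 : ∏ p ∈ T, (((range p ×ˢ range p).filter (fun t : ℕ × ℕ => if p ≤ z0 then ¬ Q p t.1 t.2 else Q p t.1 t.2)).card : ℝ) ≤ (D : ℝ) ^ 2 := by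
        have h5 : ∏ p ∈ T, (((range p ×ˢ range p).filter (fun t : ℕ × ℕ => if p ≤ z0 then ¬ Q p t.1 t.2 else Q p t.1 t.2)).card : ℝ) ≤ ∏ p ∈ T, (p : ℝ) ^ 2 := by
          apply prod_le_prod (fun _ _ => Nat.cast_nonneg _)
          intro p hp
          rw [c2 p hp]
          exact_mod_cast nu2_le Q p
        refine h5.trans ?_
        rw [prod_pow]
        have h6 : ((∏ p ∈ T, p : ℕ) : ℝ) ≤ D := by exact_mod_cast hTD
        push_cast at h6
        exact pow_le_pow_left₀ (prod_nonneg fun _ _ => Nat.cast_nonneg _) h6 2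
      rw [e1, e2, Nat.cast_one, one_pow, div_one] at h3
      have e5 : ∑ m ∈ (S0.map en).filter (fun m => ∀ p ∈ T, Q p (Nat.unpair m).1 (Nat.unpair m).2), (1 : ℝ) =
          ((S.filter (fun t => (t.1 ≡ 0 [MOD 1] ∧ t.2 ≡ 0 [MOD 1]) ∧ ∀ p ∈ pz z0 ∪ T, if p ≤ z0 then ¬ Q p (t.1 % p) (t.2 % p) else Q p (t.1 % p) (t.2 % p))).card : ℝ) := by
        rw [sum_const, nsmul_eq_mul, mul_one, filter_map, card_map, hS0, filter_filter]
        congr 2
        apply filter_congr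
        rintro ⟨a, b'⟩ _
        simp only [hen, Function.comp, Equiv.coe_toEmbedding, Nat.pairEquiv_apply, Function.uncurry_apply_pair, Nat.unpair_pair]
        constructor
        · rintro ⟨h5, h6⟩
          refine ⟨⟨Nat.modEq_one, Nat.modEq_one⟩, fun p hp => ?_⟩
          rcases mem_union.1 hp with h | h
          · rw [if_pos (mem_pz.1 h).1]
            exact fun h7 => h5 p h ((hQ.per p a b').2 h7)
          · rw [if_neg (hTz p h)]
            exact (hQ.per p a b').1 (h6 p h)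
        · rintro ⟨_, h5⟩
          constructor
          · intro p hp h7
            have h8 := h5 p (mem_union_left _ hp)
            rw [if_pos (mem_pz.1 hp).1] at h8
            exact h8 ((hQ.per p a b').1 h7)
          · intro p hp
            have h8 := h5 p (mem_union_right _ hp)
            rw [if_neg (hTz p hp)] at h8
            exact (hQ.per p a b').2 h8
      rw [e5, mul_assoc]
      refine h3.trans ?_
      apply mul_le_mul_of_nonneg_right _ hW
      exact mul_le_mul e3 e4 (prod_nonneg fun _ _ => Nat.cast_nonneg _) (by positivity))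
  have f1 : ∑ m ∈ (S0.map en).filter (fun m => ∀ p ∈ P, ¬ Q p (Nat.unpair m).1 (Nat.unpair m).2), (1 : ℝ) =
      ((S.filter (fun t => ∀ p ∈ pz y, ¬ Q p t.1 t.2)).card : ℝ) := by
    rw [sum_const, nsmul_eq_mul, mul_one, filter_map, card_map, hS0, filter_filter]
    congr 2
    apply filter_congr
    rintro ⟨a, b'⟩ _
    simp only [hen, Function.comp, Equiv.coe_toEmbedding, Nat.pairEquiv_apply, Function.uncurry_apply_pair, Nat.unpair_pair]
    rw [hpzy]
    constructor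
    · rintro ⟨h5, h6⟩ p hp
      rcases mem_union.1 hp with h | h
      · exact h5 p h
      · exact h6 p h
    · intro h
      exact ⟨fun p hp => h p (mem_union_left _ hp), fun p hp => h p (mem_union_right _ hp)⟩
  have f2 : (S.card : ℝ) * A0 * ∏ p ∈ P, (1 - (nu2 Q p : ℝ) / p ^ 2) = S.card * ∏ p ∈ pz y, (1 - (nu2 Q p : ℝ) / p ^ 2) := by
    rw [hpzy, prod_union hdisj, mul_assoc]
  rw [f1, f2] at key
  refine key.trans ?_
  apply add_le_add
  · apply mul_le_mul_of_nonneg_left _ (by positivity)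
    have h1 : ∏ p ∈ pz y, (1 - (nu2 Q p : ℝ) / p ^ 2) ≤ 1 :=
      prod_le_one (fun p hp => (fac2 Q p (mem_pz.1 hp).2).1) (fun p hp => (fac2 Q p (mem_pz.1 hp).2).2)
    calc (S.card : ℝ) * ∏ p ∈ pz y, (1 - (nu2 Q p : ℝ) / p ^ 2) ≤ S.card * 1 := mul_le_mul_of_nonneg_left h1 (Nat.cast_nonneg _)
      _ = S.card := mul_one _
  -- the error
  rw [sum_const, nsmul_eq_mul]
  have hcard : (P.powerset.filter (fun T : Finset ℕ => ∏ p ∈ T, p ≤ D)).card ≤ D := by
    calc _ ≤ (Icc 1 D).card := by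
          apply card_le_card_of_injOn (fun T : Finset ℕ => ∏ p ∈ T, p)
          · intro T hT
            rw [mem_coe, mem_filter, mem_powerset] at hT
            have h5 : 1 ≤ ∏ p ∈ T, p := Nat.pos_of_ne_zero (prod_ne_zero_iff.2 fun p hp => (hPp p (hT.1 hp)).1.ne_zero)
            exact mem_coe.2 (mem_Icc.2 ⟨h5, hT.2⟩)
          · intro T hT T' hT' h
            rw [mem_coe, mem_filter, mem_powerset] at hT hT'
            exact prod_inj T T' (fun p hp => (hPp p (hT.1 hp)).1) (fun p hp => (hPp p (hT'.1 hp)).1) h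
      _ = D := by rw [Nat.card_Icc]; omega
  have hDy : D ≤ y ^ (2 * (C0 * b)) := by
    calc D ≤ (y ^ 2) ^ (C0 * b) := Nat.pow_le_pow_left hYy _
      _ = _ := by rw [← pow_mul]
  have hJy : J + 2 ≤ 2 * y := JJ_small y (by omega)
  have hy2 : 2 * y ≤ y ^ 2 := by nlinarith [show 3 ≤ y by omega]
  have htot : (J + 2) * (D * (K0 ^ 2 * D ^ 2)) ≤ y ^ (6 * (C0 * b) + 2) * K0 ^ 2 := by
    calc (J + 2) * (D * (K0 ^ 2 * D ^ 2)) ≤ (y ^ 2) * (y ^ (2 * (C0 * b)) * (K0 ^ 2 * (y ^ (2 * (C0 * b))) ^ 2)) := by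
          have := hJy.trans hy2
          gcongr
      _ = y ^ (6 * (C0 * b) + 2) * K0 ^ 2 := by
          rw [← pow_mul]
          have : y ^ (6 * (C0 * b) + 2) = y ^ 2 * (y ^ (2 * (C0 * b)) * y ^ (2 * (C0 * b) * 2)) := by
            rw [← pow_add, ← pow_add]; congr 1; ring
          rw [this]; ring
  have h5 : (J + 2) * ((P.powerset.filter (fun T : Finset ℕ => ∏ p ∈ T, p ≤ D)).card * (K0 ^ 2 * D ^ 2)) ≤ y ^ (6 * (C0 * b) + 2) * K0 ^ 2 := by
    refine le_trans ?_ htot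
    gcongr
  have h6 : ((J : ℝ) + 2) * (((P.powerset.filter (fun T : Finset ℕ => ∏ p ∈ T, p ≤ D)).card : ℝ) * ((K0 : ℝ) ^ 2 * D ^ 2)) ≤ (y : ℝ) ^ (6 * (C0 * b) + 2) * (K0 : ℝ) ^ 2 := by
    exact_mod_cast h5
  calc ((J : ℝ) + 2) * (((P.powerset.filter (fun T : Finset ℕ => ∏ p ∈ T, p ≤ (2 ^ 2 ^ J) ^ (C0 * b))).card : ℝ) * ((K0 : ℝ) ^ 2 * D ^ 2 * W)) =
      (((J : ℝ) + 2) * (((P.powerset.filter (fun T : Finset ℕ => ∏ p ∈ T, p ≤ D)).card : ℝ) * ((K0 : ℝ) ^ 2 * D ^ 2))) * W := by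
        rw [hD, hY]; ring
    _ ≤ ((y : ℝ) ^ (6 * (C0 * b) + 2) * (K0 : ℝ) ^ 2) * W := mul_le_mul_of_nonneg_right h6 hW
    _ = _ := by push_cast; ring

end Pool.Agent.H76.VG
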