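import Pool.Agent.H76.VG.Fund2

set_option autoImplicit false

/-!
The local densities.
-/

namespace Pool.Agent.H76.VG

open Finset
open Pool.Agent.H373R2.T7 (pz mem_pz)

/-- the local conditions -/
def Bd (N₁ N₂ N₃ m p a b : ℕ) : Prop :=
  (p : ℤ) ∣ a ∨ (p : ℤ) ∣ N₁ - a ∨ (p : ℤ) ∣ b ∨ (p : ℤ) ∣ N₂ - b ∨ (p : ℤ) ∣ m - a - b ∨ (p : ℤ) ∣ N₃ - (m - a - b)

/-- the same over the field -/
def BZ {F : Type} [Field F] (x₁ x₂ x₃ m a b : F) : Prop :=
  a = 0 ∨ a = x₁ ∨ b = 0 ∨ b = x₂ ∨ b = m - a ∨ b = m - a - x₃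

lemma Bd_iff (N₁ N₂ N₃ m p a b : ℕ) [Fact p.Prime] : Bd N₁ N₂ N₃ m p a b ↔
    BZ (N₁ : ZMod p) (N₂ : ZMod p) (N₃ : ZMod p) (m : ZMod p) (a : ZMod p) (b : ZMod p) := by
  unfold Bd BZ
  have h1 : (p : ℤ) ∣ a ↔ (a : ZMod p) = 0 := by
    rw [← CharP.intCast_eq_zero_iff (ZMod p) p]; push_cast; rfl
  have h2 : (p : ℤ) ∣ N₁ - a ↔ (a : ZMod p) = N₁ := by
    rw [← CharP.intCast_eq_zero_iff (ZMod p) p]; push_cast; rw [sub_eq_zero, eq_comm]
  have h3 : (p : ℤ) ∣ b ↔ (b : ZMod p) = 0 := by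
    rw [← CharP.intCast_eq_zero_iff (ZMod p) p]; push_cast; rfl
  have h4 : (p : ℤ) ∣ N₂ - b ↔ (b : ZMod p) = N₂ := by
    rw [← CharP.intCast_eq_zero_iff (ZMod p) p]; push_cast; rw [sub_eq_zero, eq_comm]
  have h5 : (p : ℤ) ∣ m - a - b ↔ (b : ZMod p) = m - a := by
    rw [← CharP.intCast_eq_zero_iff (ZMod p) p]; push_cast; rw [sub_eq_zero, eq_comm]
  have h6 : (p : ℤ) ∣ N₃ - (m - a - b) ↔ (b : ZMod p) = m - a - N₃ := by
    rw [← CharP.intCast_eq_zero_iff (ZMod p) p]; push_cast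
    constructor
    · intro h
      linear_combination h
    · intro h
      linear_combination h
  rw [h1, h2, h3, h4, h5, h6]

lemma Bd_per (N₁ N₂ N₃ m p a b : ℕ) : Bd N₁ N₂ N₃ m p a b ↔ Bd N₁ N₂ N₃ m p (a % p) (b % p) := by
  have ha : (p : ℤ) ∣ a - ((a % p : ℕ) : ℤ) := by
    rw [← Nat.modEq_iff_dvd]; exact Nat.mod_modEq a p
  have hb : (p : ℤ) ∣ b - ((b % p : ℕ) : ℤ) := by
    rw [← Nat.modEq_iff_dvd]; exact Nat.mod_modEq b p
  have aux : ∀ x y : ℤ, (p : ℤ) ∣ x - y → ((p : ℤ) ∣ x ↔ (p : ℤ) ∣ y) := fun x y h => dvd_iff_dvd_of_dvd_sub h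
  set a' : ℤ := ((a % p : ℕ) : ℤ) with ha'
  set b' : ℤ := ((b % p : ℕ) : ℤ) with hb'
  have k1 : (p : ℤ) ∣ (N₁ - a : ℤ) - (N₁ - a') := by
    rw [show (N₁ - a : ℤ) - (N₁ - a') = -(a - a') by ring]; exact dvd_neg.2 ha
  have k2 : (p : ℤ) ∣ (N₂ - b : ℤ) - (N₂ - b') := by
    rw [show (N₂ - b : ℤ) - (N₂ - b') = -(b - b') by ring]; exact dvd_neg.2 hb
  have k3 : (p : ℤ) ∣ (m - a - b : ℤ) - (m - a' - b') := by
    rw [show (m - a - b : ℤ) - (m - a' - b') = -((a - a') + (b - b')) by ring]; exact dvd_neg.2 (dvd_add ha hb)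
  have k4 : (p : ℤ) ∣ (N₃ - (m - a - b) : ℤ) - (N₃ - (m - a' - b')) := by
    rw [show (N₃ - (m - a - b) : ℤ) - (N₃ - (m - a' - b')) = (a - a') + (b - b') by ring]; exact dvd_add ha hb
  unfold Bd
  rw [aux _ _ ha, aux _ _ k1, aux _ _ hb, aux _ _ k2, aux _ _ k3, aux _ _ k4]

section field

variable {F : Type} [Field F] [Fintype F] [DecidableEq F]

open Classical in
/-- the number of the good pairs -/
noncomputable def gd (x₁ x₂ x₃ m : F) : ℕ := ((univ : Finset (F × F)).filter (fun t => ¬ BZ x₁ x₂ x₃ m t.1 t.2)).card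

lemma gd_eq (x₁ x₂ x₃ m : F) : gd x₁ x₂ x₃ m =
    ∑ a ∈ (univ : Finset F) \ {0, x₁}, ((univ : Finset F) \ {0, x₂, m - a, m - a - x₃}).card := by
  classical
  unfold gd
  rw [card_eq_sum_card_fiberwise (f := fun t : F × F => t.1) (t := (univ : Finset F) \ {0, x₁})]
  · refine sum_congr rfl fun a ha => ?_
    simp only [mem_sdiff, mem_univ, true_and, mem_insert, mem_singleton, not_or] at ha
    refine card_nbij' (fun t => t.2) (fun b => (a, b)) ?_ ?_ ?_ ?_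
    · rintro ⟨a', b⟩ ht
      simp only [coe_filter, mem_filter, Set.mem_ofPred_eq, mem_univ, true_and] at ht
      obtain ⟨h1, rfl⟩ := ht
      unfold BZ at h1
      push Not at h1
      simp only [coe_sdiff, coe_univ, coe_insert, coe_singleton, Set.mem_sdiff, Set.mem_univ, true_and, Set.mem_insert_iff,
        Set.mem_singleton_iff, not_or]
      exact ⟨h1.2.2.1, h1.2.2.2.1, h1.2.2.2.2.1, h1.2.2.2.2.2⟩
    · intro b hb
      simp only [coe_sdiff, coe_univ, coe_insert, coe_singleton, Set.mem_sdiff, Set.mem_univ, true_and, Set.mem_insert_iff,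
        Set.mem_singleton_iff, not_or] at hb
      simp only [coe_filter, mem_filter, Set.mem_ofPred_eq, mem_univ, true_and]
      refine ⟨?_, trivial⟩
      unfold BZ
      push Not
      exact ⟨ha.1, ha.2, hb.1, hb.2.1, hb.2.2.1, hb.2.2.2⟩
    · rintro ⟨a', b⟩ ht
      simp only [coe_filter, mem_filter, Set.mem_ofPred_eq, mem_univ, true_and] at ht
      obtain ⟨_, rfl⟩ := ht
      rfl
    · intro b _; rfl
  · rintro ⟨a, b⟩ ht
    simp only [coe_filter, Set.mem_ofPred_eq, mem_univ, true_and] at ht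
    unfold BZ at ht
    push Not at ht
    simp only [coe_sdiff, coe_univ, coe_insert, coe_singleton, Set.mem_sdiff, Set.mem_univ, true_and, Set.mem_insert_iff,
      Set.mem_singleton_iff, not_or]
    exact ⟨ht.1, ht.2.1⟩

lemma card_co (U : Finset F) : (((univ : Finset F) \ U).card : ℤ) = Fintype.card F - U.card := by
  have h := card_sdiff_add_card_inter (univ : Finset F) U
  rw [univ_inter, card_univ] at h
  omega

lemma gd_lower (x₁ x₂ x₃ m : F) (hp : 4 ≤ Fintype.card F) :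
    ((Fintype.card F : ℤ) - 2) * (Fintype.card F - 4) ≤ gd x₁ x₂ x₃ m := by
  rw [gd_eq]
  push_cast
  have h1 : ∀ a ∈ (univ : Finset F) \ {0, x₁}, (Fintype.card F : ℤ) - 4 ≤ (((univ : Finset F) \ {0, x₂, m - a, m - a - x₃}).card : ℤ) := by
    intro a _
    rw [card_co]
    have : ({0, x₂, m - a, m - a - x₃} : Finset F).card ≤ 4 := card_le_four
    omega
  have h2 := sum_le_sum h1
  rw [sum_const, nsmul_eq_mul, card_co] at h2
  have h3 : ({0, x₁} : Finset F).card ≤ 2 := card_le_two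
  refine le_trans ?_ h2
  apply mul_le_mul_of_nonneg_right _ (by omega)
  omega

lemma gd_upper (x₁ x₂ x₃ m : F) (h₁ : x₁ ≠ 0) (h₂ : x₂ ≠ 0) (h₃ : x₃ ≠ 0) :
    (gd x₁ x₂ x₃ m : ℤ) ≤ (Fintype.card F - 2) * (Fintype.card F - 4) + 8 := by
  rw [gd_eq]
  push_cast
  set Ex : Finset F := {m, m - x₂, m - x₃, m - x₂ - x₃} with hEx
  have h4 : ∀ a ∈ (univ : Finset F) \ {0, x₁}, (((univ : Finset F) \ {0, x₂, m - a, m - a - x₃}).card : ℤ) ≤
      (Fintype.card F - 4) + (if a ∈ Ex then 2 else 0) := by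
    intro a _
    rw [card_co]
    by_cases ha : a ∈ Ex
    · rw [if_pos ha]
      have h5 : 2 ≤ ({0, x₂, m - a, m - a - x₃} : Finset F).card := by
        have : ({0, x₂} : Finset F) ⊆ {0, x₂, m - a, m - a - x₃} := by
          intro y hy
          simp only [mem_insert, mem_singleton] at hy ⊢
          tauto
        have h6 := card_le_card this
        rwa [card_pair h₂.symm] at h6
      omega
    · rw [if_neg ha]
      rw [hEx] at ha
      simp only [mem_insert, mem_singleton, not_or] at ha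
      have h5 : ({0, x₂, m - a, m - a - x₃} : Finset F).card = 4 := by
        rw [card_insert_of_notMem, card_insert_of_notMem, card_pair]
        · intro h; apply h₃; linear_combination h
        · simp only [mem_insert, mem_singleton, not_or]
          exact ⟨fun h => ha.2.1 (by linear_combination h), fun h => ha.2.2.2 (by linear_combination h)⟩
        · simp only [mem_insert, mem_singleton, not_or]
          exact ⟨h₂.symm, fun h => ha.1 (by linear_combination h), fun h => ha.2.2.1 (by linear_combination h)⟩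
      rw [h5]; push_cast; linarith
  have h5 := sum_le_sum h4
  refine h5.trans ?_
  rw [sum_add_distrib, sum_const, nsmul_eq_mul, card_co, card_pair h₁.symm, ← sum_filter, sum_const, nsmul_eq_mul]
  have h6 : (((univ : Finset F) \ {0, x₁}).filter (fun a => a ∈ Ex)).card ≤ 4 := by
    have : ((univ : Finset F) \ {0, x₁}).filter (fun a => a ∈ Ex) ⊆ Ex := by
      intro a ha; exact (mem_filter.1 ha).2
    exact (card_le_card this).trans card_le_four
  have h7 : ((((univ : Finset F) \ {0, x₁}).filter (fun a => a ∈ Ex)).card : ℤ) ≤ 4 := by exact_mod_cast h6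
  push_cast
  linarith

end field

/-- transfer -/
lemma nu2_gd (N₁ N₂ N₃ m p : ℕ) [Fact p.Prime] :
    nu2 (Bd N₁ N₂ N₃ m) p + gd (N₁ : ZMod p) (N₂ : ZMod p) (N₃ : ZMod p) (m : ZMod p) = p ^ 2 := by
  classical
  have h1 := card_filter_add_card_filter_not (s := range p ×ˢ range p) (fun t : ℕ × ℕ => Bd N₁ N₂ N₃ m p t.1 t.2)
  rw [card_product, card_range] at h1
  have h2 : nu2 (Bd N₁ N₂ N₃ m) p = ((range p ×ˢ range p).filter (fun t : ℕ × ℕ => Bd N₁ N₂ N₃ m p t.1 t.2)).card := by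
    unfold nu2
    congr 1
  have h3 : gd (N₁ : ZMod p) (N₂ : ZMod p) (N₃ : ZMod p) (m : ZMod p) =
      ((range p ×ˢ range p).filter (fun t : ℕ × ℕ => ¬ Bd N₁ N₂ N₃ m p t.1 t.2)).card := by
    unfold gd
    symm
    refine card_nbij' (fun t => ((t.1 : ZMod p), (t.2 : ZMod p))) (fun u => (u.1.val, u.2.val)) ?_ ?_ ?_ ?_
    · rintro ⟨a, b⟩ ht
      simp only [coe_filter, Set.mem_ofPred_eq, mem_univ, true_and] at ht ⊢
      rw [Bd_iff] at ht
      exact ht.2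
    · rintro ⟨x, y⟩ ht
      simp only [coe_filter, Set.mem_ofPred_eq, mem_univ, true_and, mem_product, mem_range] at ht ⊢
      refine ⟨⟨ZMod.val_lt x, ZMod.val_lt y⟩, ?_⟩
      rw [Bd_iff, ZMod.natCast_zmod_val, ZMod.natCast_zmod_val]
      exact ht
    · rintro ⟨a, b⟩ ht
      simp only [coe_filter, Set.mem_ofPred_eq, mem_product, mem_range] at ht
      simp only [Prod.mk.injEq]
      exact ⟨ZMod.val_natCast_of_lt ht.1.1, ZMod.val_natCast_of_lt ht.1.2⟩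
    · rintro ⟨x, y⟩ _
      simp
  rw [h2, h3, sq]
  exact h1

lemma nu2_upper (N₁ N₂ N₃ m p : ℕ) (hp : p.Prime) (h5 : 5 ≤ p) : (nu2 (Bd N₁ N₂ N₃ m) p : ℤ) ≤ 6 * p - 8 := by
  have := Fact.mk hp
  have h1 := nu2_gd N₁ N₂ N₃ m p
  have h2 := gd_lower (N₁ : ZMod p) (N₂ : ZMod p) (N₃ : ZMod p) (m : ZMod p) (by rw [ZMod.card]; omega)
  rw [ZMod.card] at h2
  have h3 : (nu2 (Bd N₁ N₂ N₃ m) p : ℤ) + gd (N₁ : ZMod p) (N₂ : ZMod p) (N₃ : ZMod p) (m : ZMod p) = p ^ 2 := by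
    exact_mod_cast h1
  nlinarith

lemma nu2_lower (N₁ N₂ N₃ m p : ℕ) (hp : p.Prime) (h₁ : ¬ p ∣ N₁) (h₂ : ¬ p ∣ N₂) (h₃ : ¬ p ∣ N₃) :
    6 * (p : ℤ) - 16 ≤ nu2 (Bd N₁ N₂ N₃ m) p := by
  have := Fact.mk hp
  have h1 := nu2_gd N₁ N₂ N₃ m p
  have aux : ∀ N : ℕ, ¬ p ∣ N → (N : ZMod p) ≠ 0 := fun N h h' => h ((ZMod.natCast_eq_zero_iff N p).1 h')
  have h2 := gd_upper (N₁ : ZMod p) (N₂ : ZMod p) (N₃ : ZMod p) (m : ZMod p) (aux _ h₁) (aux _ h₂) (aux _ h₃)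
  rw [ZMod.card] at h2
  have h3 : (nu2 (Bd N₁ N₂ N₃ m) p : ℤ) + gd (N₁ : ZMod p) (N₂ : ZMod p) (N₃ : ZMod p) (m : ZMod p) = p ^ 2 := by
    exact_mod_cast h1
  nlinarith

lemma Bd_few (N₁ N₂ N₃ m p : ℕ) (hp : p.Prime) : nu2 (Bd N₁ N₂ N₃ m) p ≤ 6 * p := by
  rcases Nat.lt_or_ge p 5 with h | h
  · have := nu2_le (Bd N₁ N₂ N₃ m) p
    nlinarith [hp.two_le]
  · have := nu2_upper N₁ N₂ N₃ m p hp h
    omega

lemma Bd_Per2 (N₁ N₂ N₃ m : ℕ) : Per2 (Bd N₁ N₂ N₃ m) 6 :=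
  ⟨fun p a b => Bd_per N₁ N₂ N₃ m p a b, fun p hp => Bd_few N₁ N₂ N₃ m p hp⟩

end Pool.Agent.H76.VG
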