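import Pool.Agent.H76.VG.Model

set_option autoImplicit false

/-!
The weighted asymptotic formula.
-/

namespace Pool.Agent.H76.VG

open Finset
open Pool.Agent.E8helper81.GB (xt xt_out xt_in xt_abs lamz_le_inv)
open Pool.Agent.E8helper66.GB (S_U3)
open Pool.Agent.H373R2.T7 (lamz pz Vz Vz_pos lamz_nonneg mem_pz Vz_inv_small)

lemma PP_empty {N₁ N₂ N₃ m X : ℕ} (h₁ : N₁ ≤ X) (h₂ : N₂ ≤ X) (h₃ : N₃ ≤ X) (hm : 3 * X < m) : PP N₁ N₂ N₃ m = ∅ := by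
  rw [eq_empty_iff_forall_notMem]
  rintro ⟨a, b⟩ h
  rw [mem_PP] at h
  omega

lemma PP_card {N₁ N₂ N₃ m X : ℕ} (h₁ : N₁ ≤ X) (h₂ : N₂ ≤ X) : ((PP N₁ N₂ N₃ m).card : ℝ) ≤ X ^ 2 := by
  have := card_le_card (PP_conv (N₃ := N₃) (m := m) h₁ h₂).sub
  rw [card_product, Nat.card_Icc] at this
  have h3 : (PP N₁ N₂ N₃ m).card ≤ X ^ 2 := by rw [sq]; simpa using this
  exact_mod_cast h3

lemma ev_sqrt (c : ℝ) (hc : 0 < c) (k : ℕ) : ∃ N0 : ℕ, ∀ N : ℕ, N0 ≤ N → c * Real.log N ^ k ≤ √(N : ℝ) := by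
  obtain ⟨n1, h1⟩ := ev_loglog (2 * Real.log c) (2 * k) 0
  obtain ⟨n2, h2⟩ := ev_log 1
  refine ⟨max (max n1 n2) 1, fun N hN => ?_⟩
  have hN1 : 1 ≤ N := (le_max_right _ _).trans hN
  have a1 := h1 N (((le_max_left _ _).trans (le_max_left _ _)).trans hN)
  have a2 := h2 N (((le_max_right _ _).trans (le_max_left _ _)).trans hN)
  have hN0 : (0 : ℝ) < N := by exact_mod_cast hN1
  set L := Real.log N with hL
  have hL0 : 0 < L := by linarith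
  have e1 : c * L ^ k = Real.exp (Real.log c + k * Real.log L) := by
    rw [Real.exp_add, Real.exp_log hc, Real.exp_nat_mul, Real.exp_log hL0]
  have e2 : √(N : ℝ) = Real.exp (L / 2) := by
    rw [Real.sqrt_eq_iff_mul_self_eq hN0.le (Real.exp_pos _).le, ← Real.exp_add, add_halves, Real.exp_log hN0]
  rw [e1, e2, Real.exp_le_exp]
  linarith

theorem main_w (hU3 : S_U3) (A : ℕ) : ∃ X₀ : ℕ, ∀ X : ℕ, X₀ ≤ X → ∃ E ⊆ Icc 1 X, (E.card : ℝ) ≤ X / Real.log X ^ A ∧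
    ∀ N₁ ∈ Icc 1 X, N₁ ∉ E → ∀ N₂ ∈ Icc 1 X, N₂ ∉ E → ∀ N₃ ∈ Icc 1 X, N₃ ∉ E → ∀ m : ℕ,
      |∑ t ∈ PP N₁ N₂ N₃ m, six6 lp N₁ N₂ N₃ m t - Sg X N₁ N₂ N₃ m * (PP N₁ N₂ N₃ m).card| ≤ X ^ 2 / Real.log X ^ A := by
  classical
  obtain ⟨B, hB⟩ := exc hU3 (A + 6)
  set E0 : ℕ := B + (A + 9) with hE0
  set K : ℕ := E0 + 1 with hK
  obtain ⟨n1, h1⟩ := hB K
  obtain ⟨n2, h2⟩ := fund2 6 (A + 7) K
  obtain ⟨n3, h3⟩ := Vz_inv_small K
  obtain ⟨n4, h4⟩ := ev_log 6656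
  obtain ⟨n5, h5⟩ := ev_sqrt 12 (by norm_num) (A + 7)
  obtain ⟨n6, h6⟩ := ev_sqrt 1 (by norm_num) K
  refine ⟨n1 + n2 + n3 + n4 + n5 + n6 + 1, fun X hX => ?_⟩
  have hX1 : 1 ≤ X := by omega
  have hX0 : (0 : ℝ) < X := by exact_mod_cast hX1
  have a4 := h4 X (by omega)
  have a5 := h5 X (by omega)
  have a6 := h6 X (by omega)
  set L := Real.log X with hL
  have hL0 : 0 < L := by linarith
  have hL1 : 1 ≤ L := by linarith
  set z : ℕ := ⌈L ^ E0⌉₊ with hz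
  have hz1 : L ^ E0 ≤ z := Nat.le_ceil _
  have hE1 : (1 : ℝ) ≤ L ^ E0 := one_le_pow₀ hL1
  have hz2 : (z : ℝ) ≤ L ^ K := by
    have h7 : (z : ℝ) < L ^ E0 + 1 := Nat.ceil_lt_add_one (by positivity)
    have h8 : L ^ K = L * L ^ E0 := by rw [hK, pow_succ]; ring
    rw [h8]
    nlinarith
  have hzB : L ^ B ≤ z := (pow_le_pow_right₀ hL1 (by omega)).trans hz1
  have hzA : L ^ (A + 9) ≤ z := (pow_le_pow_right₀ hL1 (by omega)).trans hz1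
  have hzL2 : L ^ 2 ≤ z := (pow_le_pow_right₀ hL1 (by omega)).trans hz1
  have hzL : L ≤ z := by nlinarith
  have hz1' : 1 ≤ z := by
    have : (1 : ℝ) ≤ z := by linarith
    exact_mod_cast this
  have hz0 : (0 : ℝ) < z := by linarith
  have hzX : z ≤ X := by
    have h7 : √(X : ℝ) ≤ X := by
      rw [Real.sqrt_le_left hX0.le]
      have : (1 : ℝ) ≤ X := by exact_mod_cast hX1
      nlinarith
    have : (z : ℝ) ≤ X := by linarith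
    exact_mod_cast this
  obtain ⟨E, hE, hEc, hEx⟩ := h1 X (by omega) z hzB hz2
  have hVz := h3 X (by omega) z hz1' hz2
  have hV0 : 0 < (Vz z)⁻¹ := inv_pos.2 (Vz_pos z)
  refine ⟨E, hE, hEc.trans ?_, ?_⟩
  · apply div_le_div_of_nonneg_left hX0.le (by positivity)
    exact pow_le_pow_right₀ hL1 (by omega)
  intro N₁ hN₁ hN₁E N₂ hN₂ hN₂E N₃ hN₃ hN₃E m
  have l₁ := (mem_Icc.1 hN₁).2
  have l₂ := (mem_Icc.1 hN₂).2
  have l₃ := (mem_Icc.1 hN₃).2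
  by_cases hm : 3 * X < m
  · rw [PP_empty l₁ l₂ l₃ hm]
    simp only [sum_empty, card_empty, Nat.cast_zero, mul_zero, sub_zero, abs_zero]
    positivity
  push Not at hm
  have hPc := PP_card (N₁ := N₁) (N₂ := N₂) (N₃ := N₃) (m := m) l₁ l₂
  -- the circle method
  have hΛ : ∀ x ∈ Icc 1 X, |(fun x => ArithmeticFunction.vonMangoldt x : ℕ → ℝ) x| ≤ L := by
    intro x hx
    simp only
    rw [abs_of_nonneg ArithmeticFunction.vonMangoldt_nonneg]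
    exact vm_le hx
  have hlz : ∀ x ∈ Icc 1 X, |lamz z x| ≤ L := by
    intro x _
    rw [abs_of_nonneg (lamz_nonneg z x)]
    exact (lamz_le_inv z x).trans hVz
  have bd : ∀ (f : ℕ → ℝ), (∀ x ∈ Icc 1 X, |f x| ≤ L) → ∀ (N a : ℤ), ‖((xt X f a * xt X f (N - a) : ℝ) : ℂ)‖ ≤ L ^ 2 := by
    intro f hf N a
    rw [Complex.norm_real, Real.norm_eq_abs, abs_mul, sq]
    exact mul_le_mul (xt_abs X f L hL0.le hf _) (xt_abs X f L hL0.le hf _) (abs_nonneg _) hL0.le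
  have wf : ∀ N ∈ Icc 1 X, N ∉ E → ∀ x : ℝ, ‖∑ a ∈ Icc (1 : ℤ) X,
      (((xt X (fun x => ArithmeticFunction.vonMangoldt x) a * xt X (fun x => ArithmeticFunction.vonMangoldt x) (N - a) : ℝ) : ℂ) -
        ((xt X (lamz z) a * xt X (lamz z) (N - a) : ℝ) : ℂ)) * Pool.Agent.H807R2.Dav.ee (x * a)‖ ≤ X / L ^ (A + 6) := by
    intro N hN hNE x
    have h7 := hEx N hN hNE x
    unfold ww at h7
    have e : ∑ a ∈ Icc (1 : ℤ) X,
      (((xt X (fun x => ArithmeticFunction.vonMangoldt x) a * xt X (fun x => ArithmeticFunction.vonMangoldt x) (N - a) : ℝ) : ℂ) -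
        ((xt X (lamz z) a * xt X (lamz z) (N - a) : ℝ) : ℂ)) * Pool.Agent.H807R2.Dav.ee (x * a) =
      ∑ a ∈ Icc (1 : ℤ) X, ((xt X (fun x => ArithmeticFunction.vonMangoldt x) a * xt X (fun x => ArithmeticFunction.vonMangoldt x) (N - a) -
        xt X (lamz z) a * xt X (lamz z) (N - a) : ℝ) : ℂ) * Pool.Agent.H807R2.Dav.ee (x * a) :=
      sum_congr rfl fun a _ => by push_cast; ring
    rw [e]
    exact h7
  have s1 := tern X _ _ _ _ _ _ (L ^ 2) (X / L ^ (A + 6)) (bd _ hΛ N₂) (bd _ hΛ N₃) (bd _ hlz N₁) (bd _ hlz N₂)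
    (wf N₁ hN₁ hN₁E) (wf N₂ hN₂ hN₂E) (wf N₃ hN₃ hN₃E) (m : ℤ) (by positivity) (by exact_mod_cast hm)
  have T3a := T3_PP X (fun x => ArithmeticFunction.vonMangoldt x) N₁ N₂ N₃ m l₁ l₂ l₃
  have T3b := T3_PP X (lamz z) N₁ N₂ N₃ m l₁ l₂ l₃
  rw [T3a, T3b, ← Complex.ofReal_sub, Complex.norm_real, Real.norm_eq_abs] at s1
  set SΛ := ∑ t ∈ PP N₁ N₂ N₃ m, six6 (fun x => ArithmeticFunction.vonMangoldt x) N₁ N₂ N₃ m t with hSΛ
  set Slz := ∑ t ∈ PP N₁ N₂ N₃ m, six6 (lamz z) N₁ N₂ N₃ m t with hSlz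
  have s1' : |SΛ - Slz| ≤ X ^ 2 / L ^ (A + 1) := by
    refine s1.trans ?_
    have e : 3 * ((X : ℝ) / L ^ (A + 6) * (X * (L ^ 2) ^ 2)) = X ^ 2 * (3 / L ^ (A + 2)) := by
      rw [show A + 6 = (A + 2) + 4 by ring, pow_add L (A + 2) 4]
      field_simp
    rw [e, div_eq_mul_one_div ((X : ℝ) ^ 2) (L ^ (A + 1))]
    apply mul_le_mul_of_nonneg_left _ (by positivity)
    rw [div_le_div_iff₀ (by positivity) (by positivity), show A + 2 = (A + 1) + 1 by ring, pow_succ L (A + 1)]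
    have : 0 < L ^ (A + 1) := by positivity
    nlinarith
  -- the model
  have s2 : |Slz - Sg z N₁ N₂ N₃ m * (PP N₁ N₂ N₃ m).card| ≤ X ^ 2 / L ^ (A + 1) := by
    have h7 := h2 X (by omega) z hzL hz2 (Bd N₁ N₂ N₃ m) (Bd_Per2 N₁ N₂ N₃ m) (PP N₁ N₂ N₃ m) (PP_conv l₁ l₂)
    rw [hSlz, model_eq, Sg_eq]
    have e : ((Vz z)⁻¹) ^ 6 * (((PP N₁ N₂ N₃ m).filter (fun t => ∀ p ∈ pz z, ¬ Bd N₁ N₂ N₃ m p t.1 t.2)).card : ℝ) -
        (∏ p ∈ pz z, (1 - (nu2 (Bd N₁ N₂ N₃ m) p : ℝ) / p ^ 2)) * ((Vz z)⁻¹) ^ 6 * (PP N₁ N₂ N₃ m).card =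
        ((Vz z)⁻¹) ^ 6 * ((((PP N₁ N₂ N₃ m).filter (fun t => ∀ p ∈ pz z, ¬ Bd N₁ N₂ N₃ m p t.1 t.2)).card : ℝ) -
        (PP N₁ N₂ N₃ m).card * ∏ p ∈ pz z, (1 - (nu2 (Bd N₁ N₂ N₃ m) p : ℝ) / p ^ 2)) := by ring
    rw [e, abs_mul, abs_of_pos (by positivity)]
    calc ((Vz z)⁻¹) ^ 6 * _ ≤ L ^ 6 * (X ^ 2 / L ^ (A + 7)) :=
          mul_le_mul (pow_le_pow_left₀ hV0.le hVz 6) h7 (abs_nonneg _) (by positivity)
      _ = X ^ 2 / L ^ (A + 1) := by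
          rw [show A + 7 = (A + 1) + 6 by ring, pow_add L (A + 1) 6]
          field_simp
  -- the singular series
  have s3 : |Sg X N₁ N₂ N₃ m * (PP N₁ N₂ N₃ m).card - Sg z N₁ N₂ N₃ m * (PP N₁ N₂ N₃ m).card| ≤ X ^ 2 / L ^ (A + 1) := by
    have h7 := Sg_near (N₁ := N₁) (N₂ := N₂) (N₃ := N₃) (m := m) hz1' hzX hN₁ hN₂ hN₃ (by
      rw [← hL]
      nlinarith)
    rw [← sub_mul, abs_mul, abs_of_nonneg (Nat.cast_nonneg (α := ℝ) (PP N₁ N₂ N₃ m).card)]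
    have h8 : Sg z N₁ N₂ N₃ m ≤ L ^ 6 := (Sg_upper z N₁ N₂ N₃ m).trans (pow_le_pow_left₀ hV0.le hVz 6)
    have h9 : 2 * ((1024 + 2304 * L) / z) ≤ 6656 * L / L ^ (A + 9) := by
      have e1 : (1024 + 2304 * L) / z ≤ (3328 * L) / L ^ (A + 9) := by
        apply div_le_div₀ (by positivity) (by linarith) (by positivity) hzA
      calc 2 * ((1024 + 2304 * L) / z) ≤ 2 * ((3328 * L) / L ^ (A + 9)) := by linarith
        _ = _ := by ring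
    have h10 : |Sg X N₁ N₂ N₃ m - Sg z N₁ N₂ N₃ m| ≤ L ^ 6 * (6656 * L / L ^ (A + 9)) :=
      h7.trans (mul_le_mul h8 h9 (by positivity) (by positivity))
    calc |Sg X N₁ N₂ N₃ m - Sg z N₁ N₂ N₃ m| * ((PP N₁ N₂ N₃ m).card : ℝ) ≤ L ^ 6 * (6656 * L / L ^ (A + 9)) * X ^ 2 :=
          mul_le_mul h10 hPc (Nat.cast_nonneg _) (by positivity)
      _ = X ^ 2 * (6656 / L ^ (A + 2)) := by
          rw [show A + 9 = (A + 2) + 7 by ring, pow_add L (A + 2) 7]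
          field_simp
      _ ≤ X ^ 2 * (1 / L ^ (A + 1)) := by
          apply mul_le_mul_of_nonneg_left _ (by positivity)
          rw [div_le_div_iff₀ (by positivity) (by positivity), show A + 2 = (A + 1) + 1 by ring, pow_succ L (A + 1)]
          have : 0 < L ^ (A + 1) := by positivity
          nlinarith
      _ = _ := by ring
  -- the prime powers
  have s4 : |SΛ - ∑ t ∈ PP N₁ N₂ N₃ m, six6 lp N₁ N₂ N₃ m t| ≤ X ^ 2 / L ^ (A + 1) := by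
    refine (pow_diff N₁ N₂ N₃ m X hX1 l₁ l₂ l₃).trans ?_
    rw [← hL, le_div_iff₀ (by positivity)]
    have e : L ^ 5 * (6 * (X * (2 * √(X : ℝ) * L))) * L ^ (A + 1) = X * √(X : ℝ) * (12 * L ^ (A + 7)) := by
      rw [show A + 7 = (A + 1) + 6 by ring, pow_add L (A + 1) 6]
      ring
    rw [e]
    have hss : √(X : ℝ) * √(X : ℝ) = X := Real.mul_self_sqrt hX0.le
    calc X * √(X : ℝ) * (12 * L ^ (A + 7)) ≤ X * √(X : ℝ) * √(X : ℝ) :=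
          mul_le_mul_of_nonneg_left a5 (by positivity)
      _ = X ^ 2 := by rw [mul_assoc, hss, sq]
  have hfin : 4 * ((X : ℝ) ^ 2 / L ^ (A + 1)) ≤ X ^ 2 / L ^ A := by
    rw [pow_succ L A, ← mul_div_assoc, div_le_div_iff₀ (by positivity) (by positivity)]
    have h11 : 0 < (X : ℝ) ^ 2 * L ^ A := by positivity
    have h12 := mul_le_mul_of_nonneg_left (show (4 : ℝ) ≤ L by linarith) h11.le
    linarith
  refine le_trans ?_ hfin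
  rw [abs_le] at s1' s2 s3 s4 ⊢
  constructor <;> linarith [s1'.1, s1'.2, s2.1, s2.2, s3.1, s3.2, s4.1, s4.2]

end Pool.Agent.H76.VG
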